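import Pool.Agent.H849R2.ND.Row

namespace Pool.Agent.H849R2.ND

open Finset
open scoped Classical

set_option linter.unusedSectionVars false
set_option linter.unusedVariables false

variable {ρ κ : Type} [Fintype ρ] [Fintype κ]
variable {c : ρ → κ → ℕ} {w P : ρ → κ → ℝ} {fr : ρ → κ → Prop}

/-- rows without free entries -/
lemma val_rows (K : Finset ρ) (hK : K.Nonempty)
    (h : ∀ a ∈ K, ∀ b, Dec (c a b) (w a b) (P a b)) :
    Val (∑ a ∈ K, ∑ b, c a b + K.card) ((∏ a ∈ K, ∏ b, P a b) * ∏ a ∈ K, ∑ b, w a b) := by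
  have h1 : ∀ a ∈ K, Dec (∑ b, c a b) (∑ b, w a b) (∏ b, P a b) := fun a ha =>
    Dec.sum univ fun b _ => h a ha b
  have h2 := Val.prod (N := fun a => ∑ b, c a b + 1) (v := fun a => (∏ b, P a b) * ∑ b, w a b) hK
    (fun a ha => (h1 a ha).val) (fun a ha => mul_nonneg (h1 a ha).pos.2.le (h1 a ha).pos.1)
  rw [sum_add_distrib, prod_mul_distrib] at h2
  simpa using h2

/-- no free entries at all -/
lemma case_none {n : ℕ} (hn : 1 ≤ n) (h : IsCore c w P fr) (hρ : Fintype.card ρ = n)
    (hfr : ∀ a b, ¬ fr a b) : Val (n + cost c) (fac P * per w) := by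
  have hne : (univ : Finset ρ).Nonempty := by
    rw [← card_pos, card_univ]; omega
  have h1 := val_rows (c := c) (w := w) (P := P) univ hne (fun a _ b => h.dec a b (hfr a b))
  rw [card_univ, hρ] at h1
  refine h1.mono (by unfold cost; omega) ?_
  exact mul_le_mul_of_nonneg_left (per_le_prod h.w_nonneg) (fac_pos h).le

lemma per_two {x k : ρ} {p q : κ} (hxk : x ≠ k) (hpq : p ≠ q) (hρ : ∀ a, a = x ∨ a = k)
    (hκ : ∀ b, b = p ∨ b = q) (w : ρ → κ → ℝ) : per w = w x p * w k q + w x q * w k p := by
  have hu : (univ : Finset ρ) = {x, k} := by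
    ext a; simp [hρ a]
  set g1 : ρ → κ := fun a => if a = x then p else q with hg1
  set g2 : ρ → κ := fun a => if a = x then q else p with hg2
  have hne : g1 ≠ g2 := by
    intro h
    have := congrFun h x
    simp only [hg1, hg2, if_true] at this
    exact hpq this
  have hf : (univ.filter fun g : ρ → κ => Function.Bijective g) = {g1, g2} := by
    ext g
    rw [mem_filter, mem_insert, mem_singleton]
    constructor
    · rintro ⟨_, hb⟩
      have h1 : g x ≠ g k := fun h => hxk (hb.1 h)
      rcases hκ (g x) with hx | hx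
      · left
        have hk : g k = q := (hκ (g k)).resolve_left (fun h => h1 (hx.trans h.symm))
        funext a
        rcases hρ a with rfl | rfl
        · simp only [hg1, if_true]; exact hx
        · simp only [hg1, if_neg hxk.symm]; exact hk
      · right
        have hk : g k = p := (hκ (g k)).resolve_right (fun h => h1 (hx.trans h.symm))
        funext a
        rcases hρ a with rfl | rfl
        · simp only [hg2, if_true]; exact hx
        · simp only [hg2, if_neg hxk.symm]; exact hk
    · rintro (rfl | rfl)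
      · refine ⟨mem_univ _, ?_, ?_⟩
        · intro a a' h
          rcases hρ a with rfl | rfl <;> rcases hρ a' with rfl | rfl
          · rfl
          · simp only [hg1, if_true, if_neg hxk.symm] at h; exact absurd h hpq
          · simp only [hg1, if_true, if_neg hxk.symm] at h; exact absurd h hpq.symm
          · rfl
        · intro b
          rcases hκ b with rfl | rfl
          · exact ⟨x, by simp [hg1]⟩
          · exact ⟨k, by simp [hg1, hxk.symm]⟩
      · refine ⟨mem_univ _, ?_, ?_⟩
        · intro a a' h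
          rcases hρ a with rfl | rfl <;> rcases hρ a' with rfl | rfl
          · rfl
          · simp only [hg2, if_true, if_neg hxk.symm] at h; exact absurd h hpq.symm
          · simp only [hg2, if_true, if_neg hxk.symm] at h; exact absurd h hpq
          · rfl
        · intro b
          rcases hκ b with rfl | rfl
          · exact ⟨k, by simp [hg2, hxk.symm]⟩
          · exact ⟨x, by simp [hg2]⟩
  unfold per
  rw [← sum_filter, hf, sum_pair hne, hu, prod_pair hxk, prod_pair hxk]
  simp only [hg1, hg2, if_true, if_neg hxk.symm]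

/-- order two -/
lemma case_two (h : IsCore c w P fr) (hρ : Fintype.card ρ = 2) (hκ : Fintype.card κ = 2)
    {x : ρ} {q : κ} (hf : fr x q) (hna : ¬ ∀ a b, fr a b) : Val (2 + cost c) (fac P * per w) := by
  obtain ⟨k, hk⟩ : (univ.erase x).Nonempty := by
    rw [← card_pos, card_erase_of_mem (mem_univ x), card_univ]; omega
  have hkx : k ≠ x := (mem_erase.1 hk).1
  obtain ⟨p, hp⟩ : (univ.erase q).Nonempty := by
    rw [← card_pos, card_erase_of_mem (mem_univ q), card_univ]; omega
  have hpq : p ≠ q := (mem_erase.1 hp).1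
  have hu : ({x, k} : Finset ρ) = univ := by
    rw [← card_eq_iff_eq_univ, card_pair hkx.symm, hρ]
  have hv : ({p, q} : Finset κ) = univ := by
    rw [← card_eq_iff_eq_univ, card_pair hpq, hκ]
  have hρ' : ∀ a, a = x ∨ a = k := by
    intro a
    have := mem_univ a
    rw [← hu] at this
    simpa using this
  have hκ' : ∀ b, b = p ∨ b = q := by
    intro a
    have := mem_univ a
    rw [← hv] at this
    simpa using this
  have hper := per_two hkx.symm hpq hρ' hκ' w
  have hcost : cost c = c x p + c x q + (c k p + c k q) := by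
    unfold cost
    rw [← hu, ← hv, sum_pair hkx.symm, sum_pair hpq, sum_pair hpq]
  have hfac : fac P = P x p * P x q * (P k p * P k q) := by
    unfold fac
    rw [← hu, ← hv, prod_pair hkx.symm, prod_pair hpq, prod_pair hpq]
  have hne : ∀ a b, w a b ≠ 0 := by
    intro a b h0
    have := h.elem {a} {b} ⟨a, by simp⟩ ⟨b, by simp⟩ (fun a' ha b' hb => by
      rw [mem_singleton] at ha hb
      subst ha; subst hb
      simp only [supp, not_not]
      exact h0)
    rw [card_singleton, card_singleton, hρ] at this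
    omega
  have hxq := h.free _ _ hf
  rw [hper, hcost, hfac, hxq.1, hxq.2.1, hxq.2.2]
  have hpos : ∀ a b, 0 < w a b := fun a b => lt_of_le_of_ne (h.w_nonneg a b) (Ne.symm (hne a b))
  have hP := h.P_pos
  by_cases hr : fr x p
  · have er := h.free _ _ hr
    rw [er.1, er.2.1, er.2.2]
    by_cases hb : fr k p
    · have eb := h.free _ _ hb
      rw [eb.1, eb.2.1, eb.2.2]
      by_cases ht : fr k q
      · exfalso
        apply hna
        intro a b
        rcases hρ' a with rfl | rfl <;> rcases hκ' b with rfl | rfl <;> assumption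
      · have := (Dec.union (h.dec _ _ ht) Dec.unit).val
        refine this.mono (by omega) (le_of_eq ?_)
        ring
    · have db := h.dec _ _ hb
      by_cases ht : fr k q
      · have et := h.free _ _ ht
        rw [et.1, et.2.1, et.2.2]
        have := (Dec.union db Dec.unit).val
        refine this.mono (by omega) (le_of_eq ?_)
        ring
      · have := (Dec.union db (h.dec _ _ ht)).val
        refine this.mono (by omega) (le_of_eq ?_)
        ring
  · have dr := h.dec _ _ hr
    by_cases hb : fr k p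
    · have eb := h.free _ _ hb
      rw [eb.1, eb.2.1, eb.2.2]
      by_cases ht : fr k q
      · have et := h.free _ _ ht
        rw [et.1, et.2.1, et.2.2]
        have := (Dec.union dr Dec.unit).val
        refine this.mono (by omega) (le_of_eq ?_)
        ring
      · have := (Dec.union (dr.tree (hpos _ _)) (h.dec _ _ ht)).val
        refine this.mono (by omega) (le_of_eq ?_)
        have := hne x p
        field_simp
        ring
    · have db := h.dec _ _ hb
      by_cases ht : fr k q
      · have et := h.free _ _ ht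
        rw [et.1, et.2.1, et.2.2]
        have := (Dec.union dr db).val
        refine this.mono (by omega) (le_of_eq ?_)
        ring
      · have dt := h.dec _ _ ht
        have hPP : 0 ≤ P x p * P k p * P k q :=
          mul_nonneg (mul_nonneg (hP _ _).le (hP _ _).le) (hP _ _).le
        by_cases hr1 : 1 ≤ w x p
        · have := Val.mul dr.val (Dec.union db dt).val
            (mul_nonneg dr.pos.2.le dr.pos.1)
            (mul_nonneg (Dec.union db dt).pos.2.le (Dec.union db dt).pos.1)
          refine this.mono (by omega) ?_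
          have e : w x p * w k q + 1 * w k p ≤ w x p * (w k p + w k q) := by
            nlinarith [hpos k p]
          calc _ = (P x p * P k p * P k q) * (w x p * w k q + 1 * w k p) := by ring
            _ ≤ (P x p * P k p * P k q) * (w x p * (w k p + w k q)) :=
              mul_le_mul_of_nonneg_left e hPP
            _ = _ := by ring
        · push Not at hr1
          have := (Dec.union dr (Dec.union db dt)).val
          refine this.mono (by omega) ?_
          have e : w x p * w k q + 1 * w k p ≤ w x p + (w k p + w k q) := by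
            nlinarith [hpos k p, hpos x p, hpos k q]
          calc _ = (P x p * P k p * P k q) * (w x p * w k q + 1 * w k p) := by ring
            _ ≤ (P x p * P k p * P k q) * (w x p + (w k p + w k q)) :=
              mul_le_mul_of_nonneg_left e hPP
            _ = _ := by ring

theorem col_case {n : ℕ} (hn : 3 ≤ n) (ih : IH (n - 1)) (h : IsCore c w P fr)
    (hρ : Fintype.card ρ = n) (hκ : Fintype.card κ = n) {y : κ} {p q : ρ} (hpq : p ≠ q)
    (hy : ∀ a, w a y ≠ 0 ↔ a = p ∨ a = q) (hfq : fr q y) :
    Val (n + cost c) (fac P * per w) := by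
  have h1 := row_case hn ih (h.transpose (by omega)) hκ hρ hpq hy hfq
  rwa [cost_transpose, fac_transpose, per_transpose] at h1

/-- the minimal cut case -/
lemma case_cut {n : ℕ} (hn : 3 ≤ n) (ih : ∀ m, 2 ≤ m → m < n → IH m) (h : IsCore c w P fr)
    (hρ : Fintype.card ρ = n) (hκ : Fintype.card κ = n)
    (hrow : ¬ ∃ (x : ρ) (p q : κ), p ≠ q ∧ (∀ b, w x b ≠ 0 ↔ b = p ∨ b = q) ∧ fr x q)
    {x : ρ} {y : κ} {A : Finset ρ} {B : Finset κ} (hf : fr x y) (hcut : Cut (supp w) x y A B)
    (hmin : ∀ x' y' A' B', fr x' y' → Cut (supp w) x' y' A' B' →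
      A.card ≤ A'.card ∧ A.card ≤ B'.card) :
    Val (n + cost c) (fac P * per w) := by
  have hcard : Fintype.card ρ = Fintype.card κ := by omega
  have hn2 : 2 ≤ Fintype.card ρ := by omega
  have hxy : w x y ≠ 0 := h.free_ne hf
  have hABc := hcut.hc
  rw [hρ] at hABc
  have hAB := (hmin x y A B hf hcut).2
  have hApos : 0 < A.card := card_pos.2 ⟨x, hcut.hx⟩
  -- the zero block
  set J : Finset κ := Bᶜ with hJ
  have hJc : J.card = A.card := by
    rw [hJ, card_compl, hκ]; omega
  set K : Finset ρ := A.erase x with hK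
  have hKc : K.card + 1 = A.card := by
    rw [hK, card_erase_of_mem hcut.hx]; omega
  have hzero : ∀ a ∈ K, ∀ b ∉ J, w a b = 0 := by
    intro a ha b hb
    rw [hK, mem_erase] at ha
    rw [hJ, mem_compl, not_not] at hb
    by_contra hne
    exact ha.1 (hcut.hz a ha.2 b hb hne).1
  -- s ≥ 2
  have hs : 2 ≤ A.card := by
    by_contra hlt
    have hA1 : A.card = 1 := by omega
    have hJ1 : J.card = 1 := by omega
    obtain ⟨j, hj⟩ := card_eq_one.1 hJ1
    have hyJ : y ∉ J := by rw [hJ, mem_compl, not_not]; exact hcut.hy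
    have hjy : j ≠ y := by
      rintro rfl
      exact hyJ (by rw [hj]; exact mem_singleton_self _)
    have hsub : ∀ b, w x b ≠ 0 → b = j ∨ b = y := by
      intro b hb
      by_cases hbJ : b ∈ J
      · left; rw [hj, mem_singleton] at hbJ; exact hbJ
      · right
        rw [hJ, mem_compl, not_not] at hbJ
        exact (hcut.hz x hcut.hx b hbJ hb).2
    apply hrow
    refine ⟨x, j, y, hjy, ?_, hf⟩
    intro b
    constructor
    · exact hsub b
    · rintro (rfl | rfl)
      · intro h0
        refine not_elem_row hcard hn2 (c := x) (k := y) ?_ h.elem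
        intro b' hb'
        rcases hsub b' hb' with h1 | h1
        · subst h1; exact absurd h0 hb'
        · exact h1
      · exact hxy
  -- no free entries in the rows of K
  have hnofree : ∀ a ∈ K, ∀ b, ¬ fr a b := by
    intro a ha b hfr
    have ha' := ha
    rw [hK, mem_erase] at ha'
    obtain ⟨Q, Y, hc'⟩ := exists_cut hcard hn2 h.elem (h.ess _ _ hfr)
    exact min_cut_aux hcard hn2 h.elem hxy (h.free_ne hfr) hcut hc' ha'.2 ha'.1
      (fun A' B' hA' => hmin _ _ _ _ hfr hA')
  have hfree : ∀ k, ∀ hk : k ∉ K, ∀ j ∈ J, fr k j →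
      ¬ Elem (Rem (conS K J (supp w)) ⟨k, hk⟩ none) ∧ ∀ j2 ∈ J, w k j2 ≠ 0 → j2 = j := by
    intro k hk j hj hfr
    obtain ⟨Q, Y, hc'⟩ := exists_cut hcard hn2 h.elem (h.ess _ _ hfr)
    rcases con_ess hcard h.elem (by omega : J.card = K.card + 1)
      (fun a ha b hb => by simp only [supp, not_not]; exact hzero a ha b hb) hk hc' with h1 | h1
    · rw [coll_mem hj] at h1
      exact ⟨h1.1, h1.2 hj⟩
    · exfalso
      obtain ⟨_, Q0, hQ0, Y0, hY0, hjY0, hQY, h2⟩ := h1
      have hQ0c := card_le_card hQ0
      have hcut2 : Cut (supp w) k j Q0ᶜ Y0 := by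
        refine ⟨?_, hjY0, ?_, ?_⟩
        · rw [mem_compl]; exact fun h => hk (hQ0 h)
        · intro a ha b hb hab
          rw [mem_compl] at ha
          exact (h2 b hb a hab).resolve_left ha
        · rw [card_compl]
          have := card_le_univ Q0
          omega
      have := (hmin _ _ _ _ hfr hcut2).2
      omega
  have hcore := con_isCore h hcard hn2 (by omega : J.card = K.card + 1) hzero hfree
  have hc1 : Fintype.card {a : ρ // a ∉ K} = n - K.card := by rw [card_sub, hρ]
  have hc2 : Fintype.card (Option {b : κ // b ∉ J}) = n - K.card := by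
    rw [card_opt J (by rw [← card_pos]; omega), hκ]; omega
  have hv := ih (n - K.card) (by omega) (by omega) _ _ _ _ _ _ hc1 hc2 hcore (by
    rintro ⟨h1, _⟩
    omega)
  have hr := val_rows (c := c) (w := w) (P := P) K (by rw [← card_pos]; omega)
    (fun a ha b => h.dec a b (hnofree a ha b))
  have hcn : 0 ≤ per (con K J w) :=
    per_nonneg fun a b => sum_nonneg fun _ _ => h.w_nonneg _ _
  have hfp' : 0 < fac (conP K J P) := fac_pos hcore
  have hPK : 0 ≤ ∏ a ∈ K, ∏ b, P a b := prod_nonneg fun a _ => prod_nonneg fun b _ => (h.P_pos a b).le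
  have hwK : 0 ≤ ∏ a ∈ K, ∑ b, w a b :=
    prod_nonneg fun a _ => sum_nonneg fun b _ => h.w_nonneg a b
  have hm := Val.mul hr hv (mul_nonneg hPK hwK) (mul_nonneg hfp'.le hcn)
  have hco := sum_conC K J c
  have hfa := prod_conP K J P
  have hb := per_le_block (w := w) h.w_nonneg (by omega : J.card = K.card + 1) hzero
  refine hm.mono (by omega) ?_
  rw [hfa]
  calc fac (conP K J P) * (∏ a ∈ K, ∏ b, P a b) * per w
      ≤ fac (conP K J P) * (∏ a ∈ K, ∏ b, P a b) * ((∏ a ∈ K, ∑ b, w a b) * per (con K J w)) :=
        mul_le_mul_of_nonneg_left hb (mul_nonneg hfp'.le hPK)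
    _ = _ := by ring

/-- `Cut` of the transpose -/
lemma Cut.transpose {S : ρ → κ → Prop} (hcard : Fintype.card ρ = Fintype.card κ) {x : ρ} {y : κ}
    {Q : Finset ρ} {Y : Finset κ} (h : Cut S x y Q Y) : Cut (fun b a => S a b) y x Y Q :=
  ⟨h.hy, h.hx, fun b hb a ha hab => (h.hz a ha b hb hab).symm, by rw [← hcard, ← h.hc, add_comm]⟩

theorem core_bound : ∀ n, 2 ≤ n → IH n := by
  intro n
  induction n using Nat.strong_induction_on with
  | _ n ihn =>
  intro hn ρ κ _ _ c w P fr hρ hκ h hex
  have ih : ∀ m, 2 ≤ m → m < n → IH m := fun m hm hmn => ihn m hmn hm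
  have hcard : Fintype.card ρ = Fintype.card κ := by omega
  have hn2 : 2 ≤ Fintype.card ρ := by omega
  by_cases hfr : ∀ a b, ¬ fr a b
  · exact case_none (by omega) h hρ hfr
  push Not at hfr
  obtain ⟨x0, y0, hf0⟩ := hfr
  by_cases h2 : n = 2
  · subst h2
    exact case_two h hρ hκ hf0 (fun hall => hex ⟨rfl, hall⟩)
  have hn3 : 3 ≤ n := by omega
  by_cases hrow : ∃ (x : ρ) (p q : κ), p ≠ q ∧ (∀ b, w x b ≠ 0 ↔ b = p ∨ b = q) ∧ fr x q
  · obtain ⟨x, p, q, hpq, hx, hfq⟩ := hrow
    exact row_case hn3 (ih _ (by omega) (by omega)) h hρ hκ hpq hx hfq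
  by_cases hcol : ∃ (y : κ) (p q : ρ), p ≠ q ∧ (∀ a, w a y ≠ 0 ↔ a = p ∨ a = q) ∧ fr q y
  · obtain ⟨y, p, q, hpq, hy, hfq⟩ := hcol
    exact col_case hn3 (ih _ (by omega) (by omega)) h hρ hκ hpq hy hfq
  -- minimal cut
  have hexs : ∃ s, ∃ x y A B, fr x y ∧ Cut (supp w) x y A B ∧ (s = A.card ∨ s = B.card) := by
    obtain ⟨Q, Y, hc'⟩ := exists_cut hcard hn2 h.elem (h.ess _ _ hf0)
    exact ⟨Q.card, x0, y0, Q, Y, hf0, hc', Or.inl rfl⟩
  obtain ⟨x, y, A, B, hf, hcut, hs⟩ := Nat.find_spec hexs
  have hmin : ∀ x' y' A' B', fr x' y' → Cut (supp w) x' y' A' B' →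
      Nat.find hexs ≤ A'.card ∧ Nat.find hexs ≤ B'.card := by
    intro x' y' A' B' hf' hc'
    exact ⟨Nat.find_min' hexs ⟨x', y', A', B', hf', hc', Or.inl rfl⟩,
      Nat.find_min' hexs ⟨x', y', A', B', hf', hc', Or.inr rfl⟩⟩
  rcases hs with hs | hs
  · rw [hs] at hmin
    exact case_cut hn3 ih h hρ hκ hrow hf hcut hmin
  · rw [hs] at hmin
    have h1 := case_cut hn3 ih (h.transpose hcard) hκ hρ (by
      rintro ⟨y', p, q, hpq, hy, hfq⟩
      exact hcol ⟨y', p, q, hpq, hy, hfq⟩) (x := y) (y := x) (A := B) (B := A) hf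
      (hcut.transpose hcard) (by
        intro y' x' B' A' hf' hc'
        have hc2 : Cut (supp w) x' y' A' B' := hc'.transpose hcard.symm
        exact (hmin x' y' A' B' hf' hc2).symm)
    rwa [cost_transpose, fac_transpose, per_transpose] at h1

/-- zero-one nearly decomposable matrices of order at least three -/
theorem nd_val {n : ℕ} (hn : 3 ≤ n) (w : ρ → κ → ℝ) (hρ : Fintype.card ρ = n)
    (hκ : Fintype.card κ = n) (h01 : ∀ a b, w a b = 0 ∨ w a b = 1) (hE : Elem (supp w))
    (hess : ∀ a b, w a b = 1 → ¬ Elem (Rem (supp w) a b)) : Val n (per w) := by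
  have hcore : IsCore (fun _ _ => 0) w (fun _ _ => 1) (fun a b => w a b = 1) := by
    refine ⟨?_, ?_, hE, hess⟩
    · intro a b hab
      have : w a b = 0 := (h01 a b).resolve_right hab
      rw [this]; exact Dec.zero
    · intro a b hab
      exact ⟨rfl, hab, rfl⟩
  have h1 := core_bound n (by omega) ρ κ _ _ _ _ hρ hκ hcore (fun h => by omega)
  refine h1.mono ?_ ?_
  · simp [cost]
  · simp [fac]

end Pool.Agent.H849R2.ND
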