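import Pool.Agent.H849R2.ND.Tab

namespace Pool.Agent.H849R2.ND

/-- merge closure test for a fixed first order -/
def chl (l : ℕ) : Bool := (List.range 52).all fun m => Nat.blt m l || chk l m

theorem chl_0 : chl 0 = true := by decide +kernel
theorem chl_1 : chl 1 = true := by decide +kernel
theorem chl_2 : chl 2 = true := by decide +kernel
theorem chl_3 : chl 3 = true := by decide +kernel
theorem chl_4 : chl 4 = true := by decide +kernel
theorem chl_5 : chl 5 = true := by decide +kernel
theorem chl_6 : chl 6 = true := by decide +kernel
theorem chl_7 : chl 7 = true := by decide +kernel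
theorem chl_8 : chl 8 = true := by decide +kernel
theorem chl_9 : chl 9 = true := by decide +kernel
theorem chl_10 : chl 10 = true := by decide +kernel
theorem chl_11 : chl 11 = true := by decide +kernel
theorem chl_12 : chl 12 = true := by decide +kernel
theorem chl_13 : chl 13 = true := by decide +kernel
theorem chl_14 : chl 14 = true := by decide +kernel
theorem chl_15 : chl 15 = true := by decide +kernel
theorem chl_16 : chl 16 = true := by decide +kernel
theorem chl_17 : chl 17 = true := by decide +kernel
theorem chl_18 : chl 18 = true := by decide +kernel
theorem chl_19 : chl 19 = true := by decide +kernel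
theorem chl_20 : chl 20 = true := by decide +kernel
theorem chl_21 : chl 21 = true := by decide +kernel
theorem chl_22 : chl 22 = true := by decide +kernel
theorem chl_23 : chl 23 = true := by decide +kernel
theorem chl_24 : chl 24 = true := by decide +kernel
theorem chl_25 : chl 25 = true := by decide +kernel
theorem chl_26 : chl 26 = true := by decide +kernel
theorem chl_27 : chl 27 = true := by decide +kernel
theorem chl_28 : chl 28 = true := by decide +kernel
theorem chl_29 : chl 29 = true := by decide +kernel
theorem chl_30 : chl 30 = true := by decide +kernel
theorem chl_31 : chl 31 = true := by decide +kernel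
theorem chl_32 : chl 32 = true := by decide +kernel
theorem chl_33 : chl 33 = true := by decide +kernel
theorem chl_34 : chl 34 = true := by decide +kernel
theorem chl_35 : chl 35 = true := by decide +kernel
theorem chl_36 : chl 36 = true := by decide +kernel
theorem chl_37 : chl 37 = true := by decide +kernel
theorem chl_38 : chl 38 = true := by decide +kernel
theorem chl_39 : chl 39 = true := by decide +kernel
theorem chl_40 : chl 40 = true := by decide +kernel
theorem chl_41 : chl 41 = true := by decide +kernel
theorem chl_42 : chl 42 = true := by decide +kernel
theorem chl_43 : chl 43 = true := by decide +kernel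
theorem chl_44 : chl 44 = true := by decide +kernel
theorem chl_45 : chl 45 = true := by decide +kernel
theorem chl_46 : chl 46 = true := by decide +kernel
theorem chl_47 : chl 47 = true := by decide +kernel
theorem chl_48 : chl 48 = true := by decide +kernel
theorem chl_49 : chl 49 = true := by decide +kernel
theorem chl_50 : chl 50 = true := by decide +kernel
theorem chl_51 : chl 51 = true := by decide +kernel

theorem chl_all (l : ℕ) (hl : l ≤ 51) : chl l = true := by
  interval_cases l
  · exact chl_0
  · exact chl_1
  · exact chl_2
  · exact chl_3
  · exact chl_4
  · exact chl_5
  · exact chl_6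
  · exact chl_7
  · exact chl_8
  · exact chl_9
  · exact chl_10
  · exact chl_11
  · exact chl_12
  · exact chl_13
  · exact chl_14
  · exact chl_15
  · exact chl_16
  · exact chl_17
  · exact chl_18
  · exact chl_19
  · exact chl_20
  · exact chl_21
  · exact chl_22
  · exact chl_23
  · exact chl_24
  · exact chl_25
  · exact chl_26
  · exact chl_27
  · exact chl_28
  · exact chl_29
  · exact chl_30
  · exact chl_31
  · exact chl_32
  · exact chl_33
  · exact chl_34
  · exact chl_35
  · exact chl_36
  · exact chl_37
  · exact chl_38
  · exact chl_39
  · exact chl_40
  · exact chl_41
  · exact chl_42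
  · exact chl_43
  · exact chl_44
  · exact chl_45
  · exact chl_46
  · exact chl_47
  · exact chl_48
  · exact chl_49
  · exact chl_50
  · exact chl_51

theorem chk_all {l m : ℕ} (hl : l ≤ m) (hm : m ≤ 51) : chk l m = true := by
  have h := chl_all l (hl.trans hm)
  unfold chl at h
  rw [List.all_eq_true] at h
  have h1 := h m (List.mem_range.2 (by omega))
  rw [Bool.or_eq_true] at h1
  refine h1.resolve_left ?_
  rw [Nat.blt_eq]
  omega

theorem chs_all' : ((List.range 52).all fun l => chs l) = true := by decide +kernel

theorem chs_all {l : ℕ} (hl : l ≤ 51) : chs l = true := by
  have h := chs_all'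
  rw [List.all_eq_true] at h
  exact h l (List.mem_range.2 (by omega))

end Pool.Agent.H849R2.ND
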