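import Pool.Agent.H849R2.ND.Dec

namespace Pool.Agent.H849R2.ND

open Finset
open scoped Classical

set_option linter.unusedSectionVars false
set_option linter.unusedVariables false

variable {ρ κ : Type} [Fintype ρ] [Fintype κ]

/-- support of a matrix -/
def supp (w : ρ → κ → ℝ) : ρ → κ → Prop := fun a b => w a b ≠ 0

/-- decorated core: every entry is either free (weight one, cost zero, essential) or decorated -/
structure IsCore (c : ρ → κ → ℕ) (w P : ρ → κ → ℝ) (fr : ρ → κ → Prop) : Prop where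
  dec : ∀ a b, ¬ fr a b → Dec (c a b) (w a b) (P a b)
  free : ∀ a b, fr a b → c a b = 0 ∧ w a b = 1 ∧ P a b = 1
  elem : Elem (supp w)
  ess : ∀ a b, fr a b → ¬ Elem (Rem (supp w) a b)

variable {c : ρ → κ → ℕ} {w P : ρ → κ → ℝ} {fr : ρ → κ → Prop}

lemma IsCore.w_nonneg (h : IsCore c w P fr) (a : ρ) (b : κ) : 0 ≤ w a b := by
  by_cases hf : fr a b
  · rw [(h.free a b hf).2.1]; exact zero_le_one
  · exact (h.dec a b hf).pos.1

lemma IsCore.P_pos (h : IsCore c w P fr) (a : ρ) (b : κ) : 0 < P a b := by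
  by_cases hf : fr a b
  · rw [(h.free a b hf).2.2]; exact zero_lt_one
  · exact (h.dec a b hf).pos.2

lemma IsCore.eq_zero (h : IsCore c w P fr) {a : ρ} {b : κ} (h0 : w a b = 0) :
    c a b = 0 ∧ P a b = 1 := by
  by_cases hf : fr a b
  · exact absurd ((h.free a b hf).2.1.symm.trans h0) one_ne_zero
  · exact (h.dec a b hf).eq_zero h0

lemma IsCore.not_free (h : IsCore c w P fr) {a : ρ} {b : κ} (h0 : w a b = 0) : ¬ fr a b :=
  fun hf => absurd ((h.free a b hf).2.1.symm.trans h0) one_ne_zero

lemma IsCore.free_ne (h : IsCore c w P fr) {a : ρ} {b : κ} (hf : fr a b) : w a b ≠ 0 := by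
  rw [(h.free a b hf).2.1]; exact one_ne_zero

/-- total cost -/
def cost (c : ρ → κ → ℕ) : ℕ := ∑ a, ∑ b, c a b

/-- total factor -/
noncomputable def fac (P : ρ → κ → ℝ) : ℝ := ∏ a, ∏ b, P a b

/-- transposition -/
lemma IsCore.transpose (hcard : Fintype.card ρ = Fintype.card κ) (h : IsCore c w P fr) :
    IsCore (fun b a => c a b) (fun b a => w a b) (fun b a => P a b) (fun b a => fr a b) where
  dec := fun b a => h.dec a b
  free := fun b a => h.free a b
  elem := h.elem.transpose hcard
  ess := fun b a hf hE => h.ess a b hf (by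
    have := hE.transpose hcard.symm
    have e : (fun (x : ρ) (y : κ) => Rem (supp fun b a => w a b) b a y x) = Rem (supp w) a b := by
      funext x y
      simp only [Rem, supp]
      exact propext ⟨fun h => ⟨h.1, fun h' => h.2 ⟨h'.2, h'.1⟩⟩, fun h => ⟨h.1, fun h' => h.2 ⟨h'.2, h'.1⟩⟩⟩
    rw [e] at this
    exact this)

lemma cost_transpose (c : ρ → κ → ℕ) : cost (fun b a => c a b) = cost c := sum_comm

lemma fac_transpose (P : ρ → κ → ℝ) : fac (fun b a => P a b) = fac P := prod_comm

/-- contraction of the costs -/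
noncomputable def conC (K : Finset ρ) (J : Finset κ) (c : ρ → κ → ℕ) :
    {a : ρ // a ∉ K} → Option {b : κ // b ∉ J} → ℕ :=
  fun a b' => ∑ b with coll J b = b', c a b

/-- contraction of the factors -/
noncomputable def conP (K : Finset ρ) (J : Finset κ) (P : ρ → κ → ℝ) :
    {a : ρ // a ∉ K} → Option {b : κ // b ∉ J} → ℝ :=
  fun a b' => ∏ b with coll J b = b', P a b

lemma supp_con (hw : ∀ a b, 0 ≤ w a b) (K : Finset ρ) (J : Finset κ) :
    supp (con K J w) = conS K J (supp w) := by
  funext a b'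
  simp only [supp, conS, con]
  apply propext
  rw [Ne, Finset.sum_eq_zero_iff_of_nonneg (fun b _ => hw _ _)]
  push Not
  constructor
  · rintro ⟨b, hb, hne⟩
    rw [mem_filter] at hb
    exact ⟨b, hb.2, hne⟩
  · rintro ⟨b, hb, hne⟩
    exact ⟨b, by rw [mem_filter]; exact ⟨mem_univ _, hb⟩, hne⟩

lemma con_isCore {K : Finset ρ} {J : Finset κ} (h : IsCore c w P fr)
    (hcard : Fintype.card ρ = Fintype.card κ) (h2 : 2 ≤ Fintype.card ρ)
    (hc : J.card = K.card + 1) (hK : ∀ a ∈ K, ∀ b ∉ J, w a b = 0)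
    (hfree : ∀ k, ∀ hk : k ∉ K, ∀ j ∈ J, fr k j →
      ¬ Elem (Rem (conS K J (supp w)) ⟨k, hk⟩ none) ∧ ∀ j2 ∈ J, w k j2 ≠ 0 → j2 = j) :
    IsCore (conC K J c) (con K J w) (conP K J P) (conS K J fr) where
  dec := by
    intro a b' hf
    unfold conC con conP
    apply Dec.sum
    intro b hb
    rw [mem_filter] at hb
    exact h.dec _ _ fun hf' => hf ⟨b, hb.2, hf'⟩
  free := by
    rintro a b' ⟨b0, hb0, hf⟩
    have huniq : ∀ b, coll J b = b' → b ≠ b0 → w a b = 0 := by
      intro b hb hne
      by_contra hw0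
      by_cases hbJ : b0 ∈ J
      · have hbJ' : b ∈ J := by
          rw [← coll_eq_none, hb, ← hb0, coll_mem hbJ]
        exact hne ((hfree a.1 a.2 b0 hbJ hf).2 b hbJ' hw0)
      · rw [← hb0, coll_not_mem hbJ, coll_eq_some] at hb
        exact hne hb
    have hm : b0 ∈ univ.filter (fun b => coll J b = b') := by
      rw [mem_filter]; exact ⟨mem_univ _, hb0⟩
    have hfr := h.free _ _ hf
    refine ⟨?_, ?_, ?_⟩
    · unfold conC
      rw [sum_eq_single_of_mem b0 hm]
      · exact hfr.1
      · intro b hb hne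
        rw [mem_filter] at hb
        exact (h.eq_zero (huniq b hb.2 hne)).1
    · unfold con
      rw [sum_eq_single_of_mem b0 hm]
      · exact hfr.2.1
      · intro b hb hne
        rw [mem_filter] at hb
        exact huniq b hb.2 hne
    · unfold conP
      rw [prod_eq_single_of_mem b0 hm]
      · exact hfr.2.2
      · intro b hb hne
        rw [mem_filter] at hb
        exact (h.eq_zero (huniq b hb.2 hne)).2
  elem := by
    rw [supp_con h.w_nonneg]
    exact elem_con hcard h.elem hc (fun a ha b hb => by simp only [supp, not_not]; exact hK a ha b hb)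
  ess := by
    rintro a b' ⟨b, hb, hf⟩
    rw [supp_con h.w_nonneg]
    by_cases hbJ : b ∈ J
    · have : b' = none := by rw [← hb, coll_mem hbJ]
      subst this
      exact (hfree a.1 a.2 b hbJ hf).1
    · obtain ⟨Q, Y, hcut⟩ := exists_cut hcard h2 h.elem (h.ess _ _ hf)
      rcases con_ess hcard h.elem hc
        (fun a ha b hb => by simp only [supp, not_not]; exact hK a ha b hb) a.2 hcut with h1 | h1
      · rw [← hb]
        exact h1.1
      · exact absurd h1.1 hbJ

lemma sum_conC (K : Finset ρ) (J : Finset κ) (c : ρ → κ → ℕ) :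
    cost c = cost (conC K J c) + ∑ a ∈ K, ∑ b, c a b := by
  unfold cost conC
  have h1 : ∀ a : {a : ρ // a ∉ K}, ∑ b', ∑ b with coll J b = b', c a b = ∑ b, c a b := by
    intro a
    exact Finset.sum_fiberwise univ (coll J) (fun b => c a b)
  simp_rw [h1]
  rw [← Fintype.sum_subtype_add_sum_subtype (fun a => a ∈ K) (fun a => ∑ b, c a b), add_comm]
  congr 1
  rw [← Finset.sum_coe_sort K]
  exact sum_congr (Finset.ext fun _ => by simp) fun _ _ => rfl

lemma prod_conP (K : Finset ρ) (J : Finset κ) (P : ρ → κ → ℝ) :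
    fac P = fac (conP K J P) * ∏ a ∈ K, ∏ b, P a b := by
  unfold fac conP
  have h1 : ∀ a : {a : ρ // a ∉ K}, ∏ b', ∏ b with coll J b = b', P a b = ∏ b, P a b := by
    intro a
    exact Finset.prod_fiberwise univ (coll J) (fun b => P a b)
  simp_rw [h1]
  rw [← Fintype.prod_subtype_mul_prod_subtype (fun a => a ∈ K) (fun a => ∏ b, P a b), mul_comm]
  congr 1
  rw [← Finset.prod_coe_sort K]
  exact prod_congr (Finset.ext fun _ => by simp) fun _ _ => rfl

lemma fac_pos (h : IsCore c w P fr) : 0 < fac P :=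
  prod_pos fun a _ => prod_pos fun b _ => h.P_pos a b

end Pool.Agent.H849R2.ND
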