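import Pool.Agent.H849R2.ND.Supp

namespace Pool.Agent.H849R2.ND

open Finset
open scoped Classical

set_option linter.unusedSectionVars false
set_option linter.unusedVariables false

/-- `Dec c w P`: a decoration of cost `c`, weight `w` and factor `P` -/
inductive Dec : ℕ → ℝ → ℝ → Prop
  | zero : Dec 0 0 1
  | unit : Dec 1 1 1
  | union {c1 c2 : ℕ} {w1 w2 P1 P2 : ℝ} : Dec c1 w1 P1 → Dec c2 w2 P2 →
      Dec (c1 + c2) (w1 + w2) (P1 * P2)
  | tree {c : ℕ} {w P : ℝ} : Dec c w P → 0 < w → Dec (c + 1) w⁻¹ (P * w)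

lemma Dec.pos {c : ℕ} {w P : ℝ} (h : Dec c w P) : 0 ≤ w ∧ 0 < P := by
  induction h with
  | zero => exact ⟨le_rfl, one_pos⟩
  | unit => exact ⟨zero_le_one, one_pos⟩
  | union _ _ h1 h2 => exact ⟨add_nonneg h1.1 h2.1, mul_pos h1.2 h2.2⟩
  | tree _ hw h => exact ⟨inv_nonneg.2 h.1, mul_pos h.2 hw⟩

lemma Dec.eq_zero {c : ℕ} {w P : ℝ} (h : Dec c w P) : w = 0 → c = 0 ∧ P = 1 := by
  induction h with
  | zero => intro _; exact ⟨rfl, rfl⟩
  | unit => intro h; exact absurd h one_ne_zero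
  | union d1 d2 h1 h2 =>
    intro h
    have p1 := d1.pos.1
    have p2 := d2.pos.1
    have e1 := h1 (by linarith)
    have e2 := h2 (by linarith)
    rw [e1.1, e1.2, e2.1, e2.2]
    norm_num
  | tree _ hw _ => intro h; exact absurd h (inv_pos.2 hw).ne'

lemma Dec.sum {ι : Type} {c : ι → ℕ} {w P : ι → ℝ} (s : Finset ι)
    (h : ∀ i ∈ s, Dec (c i) (w i) (P i)) : Dec (∑ i ∈ s, c i) (∑ i ∈ s, w i) (∏ i ∈ s, P i) := by
  induction s using Finset.induction_on with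
  | empty => simpa using Dec.zero
  | insert a s ha ih =>
    rw [sum_insert ha, sum_insert ha, prod_insert ha]
    exact Dec.union (h a (mem_insert_self _ _)) (ih fun i hi => h i (mem_insert_of_mem hi))

/-- value at most that of a vertex weighted tree of cost at most `N` -/
def Val (N : ℕ) (v : ℝ) : Prop := ∃ c w P, Dec c w P ∧ c + 1 ≤ N ∧ v ≤ P * w

lemma Val.mono {N N' : ℕ} {v v' : ℝ} (h : Val N v) (hN : N ≤ N') (hv : v' ≤ v) : Val N' v' := by
  obtain ⟨c, w, P, hd, hc, hvw⟩ := h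
  exact ⟨c, w, P, hd, hc.trans hN, hv.trans hvw⟩

lemma Dec.val {c : ℕ} {w P : ℝ} (h : Dec c w P) : Val (c + 1) (P * w) := ⟨c, w, P, h, le_rfl, le_rfl⟩

lemma Val.mul {N1 N2 : ℕ} {v1 v2 : ℝ} (h1 : Val N1 v1) (h2 : Val N2 v2) (hv1 : 0 ≤ v1)
    (hv2 : 0 ≤ v2) : Val (N1 + N2) (v1 * v2) := by
  obtain ⟨c1, w1, P1, d1, hc1, hvw1⟩ := h1
  obtain ⟨c2, w2, P2, d2, hc2, hvw2⟩ := h2
  by_cases hw : w1 = 0
  · have : v1 = 0 := le_antisymm (by rw [hw, mul_zero] at hvw1; exact hvw1) hv1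
    refine ⟨c2, w2, P2, d2, by omega, ?_⟩
    rw [this, zero_mul]
    exact mul_nonneg d2.pos.2.le d2.pos.1
  · have hw1 : 0 < w1 := lt_of_le_of_ne d1.pos.1 (Ne.symm hw)
    refine ⟨_, _, _, Dec.union (Dec.tree d1 hw1) d2, by omega, ?_⟩
    have e : P1 * w1 * P2 * (w1⁻¹ + w2) = P1 * P2 + (P1 * w1) * (P2 * w2) := by
      field_simp
    rw [e]
    have := mul_le_mul hvw1 hvw2 hv2 (hv1.trans hvw1)
    have := mul_pos d1.pos.2 d2.pos.2
    linarith

lemma Val.prod {ι : Type} {N : ι → ℕ} {v : ι → ℝ} {s : Finset ι} (hs : s.Nonempty)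
    (h : ∀ i ∈ s, Val (N i) (v i)) (h0 : ∀ i ∈ s, 0 ≤ v i) : Val (∑ i ∈ s, N i) (∏ i ∈ s, v i) := by
  induction hs using Finset.Nonempty.cons_induction with
  | singleton a => simpa using h a (mem_singleton_self a)
  | cons a s ha hs ih =>
    rw [sum_cons, prod_cons]
    exact Val.mul (h a (mem_cons_self _ _)) (ih (fun i hi => h i (mem_cons_of_mem hi))
      (fun i hi => h0 i (mem_cons_of_mem hi))) (h0 a (mem_cons_self _ _))
      (prod_nonneg fun i hi => h0 i (mem_cons_of_mem hi))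

end Pool.Agent.H849R2.ND
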