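import Mathlib

namespace Pool.Agent.H849R2.ND

open Finset Matrix Equiv

set_option linter.unusedSectionVars false
set_option linter.unusedVariables false

section perm

variable {m n : Type} [Fintype m] [Fintype n] [DecidableEq m] [DecidableEq n]

/-- additivity in a column -/
lemma permanent_updateCol_add (A : Matrix n n ℕ) (j : n) (u v : n → ℕ) :
    permanent (updateCol A j (u + v)) = permanent (updateCol A j u) + permanent (updateCol A j v) := by
  simp only [permanent, ← mul_prod_erase _ _ (mem_univ j), updateCol_self, Pi.add_apply, add_mul,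
    sum_add_distrib]
  congr 1
  · refine sum_congr rfl fun p _ => ?_
    rw [Finset.prod_congr rfl (fun i hi => ?_)]
    simp only [ne_eq, ne_of_mem_erase hi, not_false_eq_true, updateCol_ne]
  · refine sum_congr rfl fun p _ => ?_
    rw [Finset.prod_congr rfl (fun i hi => ?_)]
    simp only [ne_eq, ne_of_mem_erase hi, not_false_eq_true, updateCol_ne]

lemma permanent_updateCol_zero (A : Matrix n n ℕ) (j : n) :
    permanent (updateCol A j 0) = 0 := by
  have := permanent_updateCol_smul A j 0 0
  simpa using this

lemma permanent_block (A : Matrix m m ℕ) (B : Matrix m n ℕ) (D : Matrix n n ℕ) :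
    (Matrix.fromBlocks A B 0 D).permanent = A.permanent * D.permanent := by
  unfold permanent
  have := Classical.decPred (fun x => x ∈ (Perm.sumCongrHom m n).range)
  convert Eq.symm <|
    sum_subset (M := ℕ) (subset_univ ((Perm.sumCongrHom m n).range : Set (Perm (m ⊕ n))).toFinset) ?_
  · simp_rw [sum_mul_sum, ← sum_product', univ_product_univ]
    refine sum_nbij (fun σ ↦ σ.fst.sumCongr σ.snd) ?_ ?_ ?_ ?_
    · intro σ₁₂ _
      rw [Set.mem_toFinset]
      exact ⟨σ₁₂, rfl⟩
    · intro σ₁ _ σ₂ _
      dsimp only
      intro h
      have h2 : ∀ x, Perm.sumCongr σ₁.fst σ₁.snd x = Perm.sumCongr σ₂.fst σ₂.snd x :=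
        DFunLike.congr_fun h
      simp only [Sum.map_inr, Sum.map_inl, Perm.sumCongr_apply, Sum.forall, Sum.inl.injEq,
        Sum.inr.injEq] at h2
      ext x
      · exact h2.left x
      · exact h2.right x
    · intro σ hσ
      rw [mem_coe, Set.mem_toFinset] at hσ
      obtain ⟨σ₁₂, hσ₁₂⟩ := hσ
      use σ₁₂
      rw [← hσ₁₂]
      simp
    · simp only [forall_prop_of_true, Prod.forall, mem_univ]
      intro σ₁ σ₂
      rw [Fintype.prod_sum_type]
      simp_rw [Equiv.sumCongr_apply, Sum.map_inr, Sum.map_inl, fromBlocks_apply₁₁,
        fromBlocks_apply₂₂]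
  · rintro σ - hσn
    have h1 : ¬∀ x, ∃ y, Sum.inl y = σ (Sum.inl x) := by
      rw [Set.mem_toFinset] at hσn
      simpa only [Set.MapsTo, Set.mem_range, forall_exists_index, forall_apply_eq_imp_iff] using
        mt Perm.mem_sumCongrHom_range_of_perm_mapsTo_inl hσn
    obtain ⟨a, ha⟩ := not_forall.mp h1
    rcases hx : σ (Sum.inl a) with a2 | b
    · have hn := (not_exists.mp ha) a2
      exact absurd hx.symm hn
    · rw [Finset.prod_eq_zero (Finset.mem_univ (Sum.inl a))]
      rw [hx, fromBlocks_apply₂₁, Matrix.zero_apply]

lemma permanent_block' (A : Matrix m m ℕ) (B : Matrix n m ℕ) (D : Matrix n n ℕ) :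
    (Matrix.fromBlocks A 0 B D).permanent = A.permanent * D.permanent := by
  rw [← permanent_transpose, fromBlocks_transpose, transpose_zero, permanent_block,
    permanent_transpose, permanent_transpose]

end perm

variable {m n : Type} [Fintype m] [Fintype n] [DecidableEq m] [DecidableEq n]

/-- zero blocks of a matrix are small -/
def FI (A : Matrix n n ℕ) : Prop :=
  ∀ (Q Y : Finset n), Q.Nonempty → Y.Nonempty → (∀ a ∈ Q, ∀ b ∈ Y, A a b = 0) →
    Q.card + Y.card < Fintype.card n

/-- matrix unit -/
def E (i : m) (l : n) : Matrix m n ℕ := fun a b => if a = i ∧ b = l then 1 else 0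

/-- two hub matrices joined -/
def joi (A : Matrix m m ℕ) (i j : m) (B : Matrix n n ℕ) (k l : n) :
    Matrix (m ⊕ n) (m ⊕ n) ℕ := fromBlocks A (E i l) (E k j) B

lemma permanent_joi (A : Matrix m m ℕ) (i j : m) (B : Matrix n n ℕ) (k l : n) :
    (joi A i j B k l).permanent = A.permanent * B.permanent +
      (A.updateCol j (Pi.single i 1)).permanent * (B.updateCol l (Pi.single k 1)).permanent := by
  set N := joi A i j B k l with hN
  set u : m ⊕ n → ℕ := Sum.elim 0 (fun b => B b l) with hu
  set v : m ⊕ n → ℕ := Sum.elim (Pi.single i 1) 0 with hv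
  set u' : m ⊕ n → ℕ := Sum.elim (fun a => A a j) 0 with hu'
  set v' : m ⊕ n → ℕ := Sum.elim 0 (Pi.single k 1) with hv'
  have h1 : N = updateCol N (Sum.inr l) (u + v) := by
    ext a b
    by_cases hb : b = Sum.inr l
    · subst hb
      rw [updateCol_self]
      rcases a with a | a
      · simp [hN, joi, hu, hv, E, Pi.single_apply]
      · simp [hN, joi, hu, hv]
    · rw [updateCol_ne hb]
  have h2 : updateCol N (Sum.inr l) u = fromBlocks A 0 (E k j) B := by
    ext a b
    by_cases hb : b = Sum.inr l
    · subst hb
      rw [updateCol_self]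
      rcases a with a | a
      · simp [hu]
      · simp [hu]
    · rw [updateCol_ne hb]
      rcases b with b | b
      · rcases a with a | a <;> simp [hN, joi]
      · have hb' : b ≠ l := fun h => hb (by rw [h])
        rcases a with a | a <;> simp [hN, joi, E, hb']
  set N2 := updateCol N (Sum.inr l) v with hN2
  have h3 : N2 = updateCol N2 (Sum.inl j) (u' + v') := by
    ext a b
    by_cases hb : b = Sum.inl j
    · subst hb
      rw [updateCol_self, hN2, updateCol_ne (by simp)]
      rcases a with a | a
      · simp [hN, joi, hu', hv']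
      · simp [hN, joi, hu', hv', E, Pi.single_apply]
    · rw [updateCol_ne hb]
  have h4 : updateCol N2 (Sum.inl j) u' = fromBlocks A (E i l) 0 (updateCol B l 0) := by
    ext a b
    by_cases hb : b = Sum.inl j
    · subst hb
      rw [updateCol_self]
      rcases a with a | a
      · simp [hu']
      · simp [hu']
    · rw [updateCol_ne hb, hN2]
      rcases b with b | b
      · rw [updateCol_ne (by simp)]
        have hb' : b ≠ j := fun h => hb (by rw [h])
        rcases a with a | a <;> simp [hN, joi, E, hb']
      · by_cases hbl : b = l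
        · subst hbl
          rw [updateCol_self]
          rcases a with a | a
          · simp [hv, E, Pi.single_apply]
          · simp [hv]
        · rw [updateCol_ne (by simpa using hbl)]
          rcases a with a | a
          · simp [hN, joi, E, hbl]
          · simp [hN, joi, hbl]
  have h5 : updateCol N2 (Sum.inl j) v' =
      (fromBlocks (A.updateCol j (Pi.single i 1)) 0 0 (B.updateCol l (Pi.single k 1))).submatrix id
        (Equiv.swap (Sum.inl j) (Sum.inr l)) := by
    ext a b
    rw [submatrix_apply, id]
    by_cases hb : b = Sum.inl j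
    · subst hb
      rw [updateCol_self, Equiv.swap_apply_left]
      rcases a with a | a
      · simp [hv']
      · simp [hv', Pi.single_apply]
    · by_cases hbl : b = Sum.inr l
      · subst hbl
        rw [updateCol_ne hb, hN2, updateCol_self, Equiv.swap_apply_right]
        rcases a with a | a
        · simp [hv, Pi.single_apply]
        · simp [hv]
      · rw [updateCol_ne hb, hN2, updateCol_ne hbl, Equiv.swap_apply_of_ne_of_ne hb hbl]
        rcases b with b | b
        · have hb' : b ≠ j := fun h => hb (by rw [h])
          rcases a with a | a <;> simp [hN, joi, E, hb']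
        · have hb' : b ≠ l := fun h => hbl (by rw [h])
          rcases a with a | a <;> simp [hN, joi, E, hb']
  rw [h1, permanent_updateCol_add, h2, permanent_block', ← hN2, h3, permanent_updateCol_add, h4,
    permanent_block, permanent_updateCol_zero, mul_zero, zero_add, h5, permanent_permute_rows,
    permanent_block]

lemma cof_joi (A : Matrix m m ℕ) (i j : m) (B : Matrix n n ℕ) (k l : n) :
    ((joi A i j B k l).updateCol (Sum.inl j) (Pi.single (Sum.inl i) 1)).permanent =
      (A.updateCol j (Pi.single i 1)).permanent * B.permanent := by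
  have h1 : (joi A i j B k l).updateCol (Sum.inl j) (Pi.single (Sum.inl i) 1) =
      fromBlocks (A.updateCol j (Pi.single i 1)) (E i l) 0 B := by
    ext a b
    by_cases hb : b = Sum.inl j
    · subst hb
      rw [updateCol_self]
      rcases a with a | a
      · simp [Pi.single_apply]
      · simp
    · rw [updateCol_ne hb]
      rcases b with b | b
      · have hb' : b ≠ j := fun h => hb (by rw [h])
        rcases a with a | a <;> simp [joi, E, hb']
      · rcases a with a | a <;> simp [joi]
  rw [h1, permanent_block]

/-- a matrix with a hub -/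
structure Hub (A : Matrix n n ℕ) (i j : n) (Z Z0 : ℕ) : Prop where
  zo : ∀ a b, A a b = 0 ∨ A a b = 1
  hub : A i j = 0
  per : A.permanent = Z
  cof : (A.updateCol j (Pi.single i 1)).permanent = Z0
  fi : FI A
  cut : ∀ a b, A a b = 1 → ∃ Q Y : Finset n, a ∈ Q ∧ b ∈ Y ∧
    (∀ a' ∈ Q, ∀ b' ∈ Y, A a' b' = 1 → a' = a ∧ b' = b) ∧ Q.card + Y.card = Fintype.card n ∧
    ¬ (i ∈ Q ∧ j ∈ Y)

lemma FI.cases {A : Matrix n n ℕ} (h : FI A) {Q Y : Finset n} (hz : ∀ a ∈ Q, ∀ b ∈ Y, A a b = 0) :
    Q.card + Y.card < Fintype.card n ∨ (Q = ∅ ∧ Y.card ≤ Fintype.card n) ∨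
      (Y = ∅ ∧ Q.card ≤ Fintype.card n) := by
  by_cases hQ : Q.Nonempty
  · by_cases hY : Y.Nonempty
    · exact Or.inl (h Q Y hQ hY hz)
    · right; right
      exact ⟨not_nonempty_iff_eq_empty.1 hY, card_le_univ Q⟩
  · right; left
    exact ⟨not_nonempty_iff_eq_empty.1 hQ, card_le_univ Y⟩

lemma FI.joi {A : Matrix m m ℕ} {B : Matrix n n ℕ} (hA : FI A) (hB : FI B) (i j : m) (k l : n) :
    FI (joi A i j B k l) := by
  intro Q Y hQ hY hz
  rw [Fintype.card_sum, ← card_toLeft_add_card_toRight (u := Q),
    ← card_toLeft_add_card_toRight (u := Y)]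
  have h1 := hA.cases (Q := Q.toLeft) (Y := Y.toLeft) (fun a ha b hb => by
    have := hz _ (mem_toLeft.1 ha) _ (mem_toLeft.1 hb)
    simpa [Pool.Agent.H849R2.ND.joi] using this)
  have h2 := hB.cases (Q := Q.toRight) (Y := Y.toRight) (fun a ha b hb => by
    have := hz _ (mem_toRight.1 ha) _ (mem_toRight.1 hb)
    simpa [Pool.Agent.H849R2.ND.joi] using this)
  by_contra hcon
  push Not at hcon
  rcases h1 with h1 | ⟨h1, h1'⟩ | ⟨h1, h1'⟩
  · rcases h2 with h2 | ⟨h2, h2'⟩ | ⟨h2, h2'⟩
    · omega
    · rw [h2, card_empty] at hcon; omega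
    · rw [h2, card_empty] at hcon; omega
  · rcases h2 with h2 | ⟨h2, h2'⟩ | ⟨h2, h2'⟩
    · rw [h1, card_empty] at hcon; omega
    · obtain ⟨a, ha⟩ := hQ
      rcases a with a | a
      · have := mem_toLeft.2 ha
        rw [h1] at this; simp at this
      · have := mem_toRight.2 ha
        rw [h2] at this; simp at this
    · simp only [h1, h2, card_empty] at hcon
      have e1 : Y.toLeft = univ := by rw [← card_eq_iff_eq_univ]; omega
      have e2 : Q.toRight = univ := by rw [← card_eq_iff_eq_univ]; omega
      have := hz (Sum.inr k) (mem_toRight.1 (by rw [e2]; exact mem_univ _)) (Sum.inl j)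
        (mem_toLeft.1 (by rw [e1]; exact mem_univ _))
      simp [Pool.Agent.H849R2.ND.joi, E] at this
  · rcases h2 with h2 | ⟨h2, h2'⟩ | ⟨h2, h2'⟩
    · rw [h1, card_empty] at hcon; omega
    · simp only [h1, h2, card_empty] at hcon
      have e1 : Y.toRight = univ := by rw [← card_eq_iff_eq_univ]; omega
      have e2 : Q.toLeft = univ := by rw [← card_eq_iff_eq_univ]; omega
      have := hz (Sum.inl i) (mem_toLeft.1 (by rw [e2]; exact mem_univ _)) (Sum.inr l)
        (mem_toRight.1 (by rw [e1]; exact mem_univ _))
      simp [Pool.Agent.H849R2.ND.joi, E] at this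
    · obtain ⟨a, ha⟩ := hY
      rcases a with a | a
      · have := mem_toLeft.2 ha
        rw [h1] at this; simp at this
      · have := mem_toRight.2 ha
        rw [h2] at this; simp at this

lemma Hub.joi {A : Matrix m m ℕ} {i j : m} {Z Z0 : ℕ} (hA : Hub A i j Z Z0)
    {B : Matrix n n ℕ} {k l : n} {z z0 : ℕ} (hB : Hub B k l z z0) :
    Hub (joi A i j B k l) (Sum.inl i) (Sum.inl j) (Z * z + Z0 * z0) (Z0 * z) where
  zo := by
    rintro (a | a) (b | b)
    · simpa [Pool.Agent.H849R2.ND.joi] using hA.zo a b
    · simp only [Pool.Agent.H849R2.ND.joi, fromBlocks_apply₁₂, E]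
      split_ifs <;> simp
    · simp only [Pool.Agent.H849R2.ND.joi, fromBlocks_apply₂₁, E]
      split_ifs <;> simp
    · simpa [Pool.Agent.H849R2.ND.joi] using hB.zo a b
  hub := by simpa [Pool.Agent.H849R2.ND.joi] using hA.hub
  per := by rw [permanent_joi, hA.per, hB.per, hA.cof, hB.cof]
  cof := by rw [cof_joi, hA.cof, hB.per]
  fi := hA.fi.joi hB.fi i j k l
  cut := by
    have hcm : ∀ Q : Finset m, ∀ Q' : Finset n, (Q.disjSum Q').card = Q.card + Q'.card :=
      fun Q Q' => card_disjSum Q Q'
    rintro (a | a) (b | b) hab
    · simp only [Pool.Agent.H849R2.ND.joi, fromBlocks_apply₁₁] at hab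
      obtain ⟨Q, Y, haQ, hbY, hz, hc, hij⟩ := hA.cut a b hab
      by_cases hi : i ∈ Q
      · have hj : j ∉ Y := fun hj => hij ⟨hi, hj⟩
        refine ⟨Q.disjSum univ, Y.disjSum ∅, inl_mem_disjSum.2 haQ, inl_mem_disjSum.2 hbY, ?_, ?_, ?_⟩
        · rintro (a' | a') ha' (b' | b') hb' h1
          · simp only [Pool.Agent.H849R2.ND.joi, fromBlocks_apply₁₁] at h1
            obtain ⟨e1, e2⟩ := hz a' (inl_mem_disjSum.1 ha') b' (inl_mem_disjSum.1 hb') h1
            exact ⟨by rw [e1], by rw [e2]⟩
          · exact absurd (inr_mem_disjSum.1 hb') (notMem_empty _)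
          · simp only [Pool.Agent.H849R2.ND.joi, fromBlocks_apply₂₁, E] at h1
            split_ifs at h1 with h2
            exact absurd (h2.2 ▸ inl_mem_disjSum.1 hb') hj
          · exact absurd (inr_mem_disjSum.1 hb') (notMem_empty _)
        · rw [hcm, hcm, card_univ, card_empty, Fintype.card_sum]; omega
        · rintro ⟨_, h2⟩
          exact hj (inl_mem_disjSum.1 h2)
      · refine ⟨Q.disjSum ∅, Y.disjSum univ, inl_mem_disjSum.2 haQ, inl_mem_disjSum.2 hbY, ?_, ?_, ?_⟩
        · rintro (a' | a') ha' (b' | b') hb' h1
          · simp only [Pool.Agent.H849R2.ND.joi, fromBlocks_apply₁₁] at h1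
            obtain ⟨e1, e2⟩ := hz a' (inl_mem_disjSum.1 ha') b' (inl_mem_disjSum.1 hb') h1
            exact ⟨by rw [e1], by rw [e2]⟩
          · simp only [Pool.Agent.H849R2.ND.joi, fromBlocks_apply₁₂, E] at h1
            split_ifs at h1 with h2
            exact absurd (h2.1 ▸ inl_mem_disjSum.1 ha') hi
          · exact absurd (inr_mem_disjSum.1 ha') (notMem_empty _)
          · exact absurd (inr_mem_disjSum.1 ha') (notMem_empty _)
        · rw [hcm, hcm, card_univ, card_empty, Fintype.card_sum]; omega
        · rintro ⟨h2, _⟩
          exact hi (inl_mem_disjSum.1 h2)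
    · simp only [Pool.Agent.H849R2.ND.joi, fromBlocks_apply₁₂, E] at hab
      split_ifs at hab with hab'
      obtain ⟨rfl, rfl⟩ := hab'
      refine ⟨univ.disjSum ∅, Finset.disjSum ∅ univ, inl_mem_disjSum.2 (mem_univ _),
        inr_mem_disjSum.2 (mem_univ _), ?_, ?_, ?_⟩
      · rintro (a' | a') ha' (b' | b') hb' h1
        · exact absurd (inl_mem_disjSum.1 hb') (notMem_empty _)
        · simp only [Pool.Agent.H849R2.ND.joi, fromBlocks_apply₁₂, E] at h1
          split_ifs at h1 with h2
          exact ⟨by rw [h2.1], by rw [h2.2]⟩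
        · exact absurd (inr_mem_disjSum.1 ha') (notMem_empty _)
        · exact absurd (inr_mem_disjSum.1 ha') (notMem_empty _)
      · rw [hcm, hcm, card_univ, card_univ, card_empty, card_empty, Fintype.card_sum]; omega
      · rintro ⟨_, h2⟩
        exact absurd (inl_mem_disjSum.1 h2) (notMem_empty _)
    · simp only [Pool.Agent.H849R2.ND.joi, fromBlocks_apply₂₁, E] at hab
      split_ifs at hab with hab'
      obtain ⟨rfl, rfl⟩ := hab'
      refine ⟨Finset.disjSum ∅ univ, univ.disjSum ∅, inr_mem_disjSum.2 (mem_univ _),
        inl_mem_disjSum.2 (mem_univ _), ?_, ?_, ?_⟩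
      · rintro (a' | a') ha' (b' | b') hb' h1
        · exact absurd (inl_mem_disjSum.1 ha') (notMem_empty _)
        · exact absurd (inl_mem_disjSum.1 ha') (notMem_empty _)
        · simp only [Pool.Agent.H849R2.ND.joi, fromBlocks_apply₂₁, E] at h1
          split_ifs at h1 with h2
          exact ⟨by rw [h2.1], by rw [h2.2]⟩
        · exact absurd (inr_mem_disjSum.1 hb') (notMem_empty _)
      · rw [hcm, hcm, card_univ, card_univ, card_empty, card_empty, Fintype.card_sum]; omega
      · rintro ⟨h2, _⟩
        exact absurd (inl_mem_disjSum.1 h2) (notMem_empty _)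
    · simp only [Pool.Agent.H849R2.ND.joi, fromBlocks_apply₂₂] at hab
      obtain ⟨Q, Y, haQ, hbY, hz, hc, hij⟩ := hB.cut a b hab
      by_cases hi : k ∈ Q
      · have hj : l ∉ Y := fun hj => hij ⟨hi, hj⟩
        refine ⟨univ.disjSum Q, Finset.disjSum ∅ Y, inr_mem_disjSum.2 haQ, inr_mem_disjSum.2 hbY,
          ?_, ?_, ?_⟩
        · rintro (a' | a') ha' (b' | b') hb' h1
          · exact absurd (inl_mem_disjSum.1 hb') (notMem_empty _)
          · simp only [Pool.Agent.H849R2.ND.joi, fromBlocks_apply₁₂, E] at h1
            split_ifs at h1 with h2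
            exact absurd (h2.2 ▸ inr_mem_disjSum.1 hb') hj
          · exact absurd (inl_mem_disjSum.1 hb') (notMem_empty _)
          · simp only [Pool.Agent.H849R2.ND.joi, fromBlocks_apply₂₂] at h1
            obtain ⟨e1, e2⟩ := hz a' (inr_mem_disjSum.1 ha') b' (inr_mem_disjSum.1 hb') h1
            exact ⟨by rw [e1], by rw [e2]⟩
        · rw [hcm, hcm, card_univ, card_empty, Fintype.card_sum]; omega
        · rintro ⟨_, h2⟩
          exact absurd (inl_mem_disjSum.1 h2) (notMem_empty _)
      · refine ⟨Finset.disjSum ∅ Q, univ.disjSum Y, inr_mem_disjSum.2 haQ, inr_mem_disjSum.2 hbY,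
          ?_, ?_, ?_⟩
        · rintro (a' | a') ha' (b' | b') hb' h1
          · exact absurd (inl_mem_disjSum.1 ha') (notMem_empty _)
          · exact absurd (inl_mem_disjSum.1 ha') (notMem_empty _)
          · simp only [Pool.Agent.H849R2.ND.joi, fromBlocks_apply₂₁, E] at h1
            split_ifs at h1 with h2
            exact absurd (h2.1 ▸ inr_mem_disjSum.1 ha') hi
          · simp only [Pool.Agent.H849R2.ND.joi, fromBlocks_apply₂₂] at h1
            obtain ⟨e1, e2⟩ := hz a' (inr_mem_disjSum.1 ha') b' (inr_mem_disjSum.1 hb') h1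
            exact ⟨by rw [e1], by rw [e2]⟩
        · rw [hcm, hcm, card_univ, card_empty, Fintype.card_sum]; omega
        · rintro ⟨h2, _⟩
          exact absurd (inl_mem_disjSum.1 h2) (notMem_empty _)

/-- the star matrix -/
def star (a : ℕ) : Matrix (Option (Fin a)) (Option (Fin a)) ℕ
  | none, none => 0
  | none, some _ => 1
  | some _, none => 1
  | some s, some t => if s = t then 1 else 0

lemma star_per (a : ℕ) : (star a).permanent = a := by
  unfold permanent
  have h := Fintype.sum_of_injective (fun t : Fin a => Equiv.swap (none : Option (Fin a)) (some t))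
    (fun t t' h => by
      have := DFunLike.congr_fun h none
      simpa using this)
    (fun _ => (1 : ℕ)) (fun σ : Perm (Option (Fin a)) => ∏ i, star a (σ i) i) (by
      intro σ hσ
      by_contra hne
      rw [Finset.prod_eq_zero_iff] at hne
      push Not at hne
      apply hσ
      have h0 := hne none (mem_univ _)
      rcases ht : σ none with _ | t
      · rw [ht] at h0; exact absurd rfl h0
      · refine ⟨t, ?_⟩
        have hall : ∀ s : Fin a, σ (some s) = none ∨ σ (some s) = some s := by
          intro s
          have hs := hne (some s) (mem_univ _)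
          rcases hs' : σ (some s) with _ | u
          · left; rfl
          · right
            rw [hs'] at hs
            simp only [star] at hs
            by_cases hus : u = s
            · rw [hus]
            · rw [if_neg hus] at hs; exact absurd rfl hs
        have htt : σ (some t) = none := by
          rcases hall t with h | h
          · exact h
          · exact absurd (σ.injective (h.trans ht.symm)) (by simp)
        apply Equiv.ext
        intro x
        rcases x with _ | s
        · rw [Equiv.swap_apply_left, ht]
        · by_cases hst : s = t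
          · rw [hst, Equiv.swap_apply_right, htt]
          · rw [Equiv.swap_apply_of_ne_of_ne (by simp) (by simpa using hst)]
            rcases hall s with h | h
            · exact absurd (σ.injective (h.trans htt.symm)) (by simpa using hst)
            · exact h.symm)
    (by
      intro t
      rw [Fintype.prod_option, Equiv.swap_apply_left]
      simp only [star, one_mul]
      symm
      apply Finset.prod_eq_one
      intro s _
      by_cases hst : s = t
      · rw [hst, Equiv.swap_apply_right]
      · rw [Equiv.swap_apply_of_ne_of_ne (by simp) (by simpa using hst)]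
        simp)
  rw [← h]
  simp

lemma star_cof (a : ℕ) : ((star a).updateCol none (Pi.single none 1)).permanent = 1 := by
  unfold permanent
  rw [Finset.sum_eq_single 1]
  · apply Finset.prod_eq_one
    intro x _
    rcases x with _ | s
    · simp
    · rw [updateCol_ne (by simp)]
      simp [star]
  · intro σ _ hσ
    by_contra hne
    rw [Finset.prod_eq_zero_iff] at hne
    push Not at hne
    apply hσ
    have h0 : σ none = none := by
      have := hne none (mem_univ _)
      rw [updateCol_self] at this
      by_contra h
      rw [Pi.single_eq_of_ne h] at this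
      exact this rfl
    apply Equiv.ext
    intro x
    rcases x with _ | s
    · exact h0
    · have hs := hne (some s) (mem_univ _)
      rw [updateCol_ne (by simp)] at hs
      rcases hs' : σ (some s) with _ | u
      · exact absurd (σ.injective (hs'.trans h0.symm)) (by simp)
      · rw [hs'] at hs
        simp only [star] at hs
        by_cases hus : u = s
        · rw [hus]; simp
        · rw [if_neg hus] at hs; exact absurd rfl hs
  · intro h; exact absurd (mem_univ _) h

lemma star_FI {a : ℕ} (ha : 2 ≤ a) : FI (star a) := by
  intro Q Y hQ hY hz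
  rw [Fintype.card_option, Fintype.card_fin]
  by_cases hn : none ∈ Q
  · have hY' : Y ⊆ {none} := by
      intro y hy
      rcases y with _ | y
      · simp
      · have := hz none hn (some y) hy
        simp [star] at this
    obtain ⟨y, hy⟩ := hY
    have hny : none ∈ Y := by
      have := hY' hy
      rw [mem_singleton] at this
      rwa [this] at hy
    have hQ' : Q ⊆ {none} := by
      intro y hy
      rcases y with _ | y
      · simp
      · have := hz (some y) hy none hny
        simp [star] at this
    have h1 := card_le_card hQ'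
    have h2 := card_le_card hY'
    rw [card_singleton] at h1 h2
    omega
  · have hny : none ∉ Y := by
      intro hny
      obtain ⟨q, hq⟩ := hQ
      rcases q with _ | q
      · exact hn hq
      · have := hz (some q) hq none hny
        simp [star] at this
    have hd : Disjoint Q Y := by
      rw [disjoint_left]
      intro x hx hy
      rcases x with _ | x
      · exact hn hx
      · have := hz (some x) hx (some x) hy
        simp [star] at this
    have h1 : (Q ∪ Y) ⊆ univ.erase none := by
      intro x hx
      rw [mem_erase]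
      refine ⟨?_, mem_univ _⟩
      rintro rfl
      rw [mem_union] at hx
      exact hx.elim hn hny
    have h2 := card_le_card h1
    rw [card_union_of_disjoint hd, card_erase_of_mem (mem_univ _), card_univ, Fintype.card_option,
      Fintype.card_fin] at h2
    omega

lemma star_hub {a : ℕ} (ha : 2 ≤ a) : Hub (star a) none none a 1 where
  zo := by
    rintro (_ | s) (_ | t)
    · left; rfl
    · right; rfl
    · right; rfl
    · simp only [star]; split_ifs <;> simp
  hub := rfl
  per := star_per a
  cof := star_cof a
  fi := star_FI ha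
  cut := by
    have hcard : Fintype.card (Option (Fin a)) = a + 1 := by
      rw [Fintype.card_option, Fintype.card_fin]
    rintro (_ | s) (_ | t) h
    · exact absurd h (by simp [star])
    · refine ⟨univ.erase (some t), {some t}, by simp, by simp, ?_, ?_, by simp⟩
      · intro a' ha' b' hb' h1
        rw [mem_singleton] at hb'
        subst hb'
        rcases a' with _ | s
        · exact ⟨rfl, rfl⟩
        · simp only [star] at h1
          split_ifs at h1 with h2
          rw [h2] at ha'
          simp at ha'
      · rw [card_erase_of_mem (mem_univ _), card_univ, card_singleton, hcard]; omega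
    · refine ⟨{some s}, univ.erase (some s), by simp, by simp, ?_, ?_, by simp⟩
      · intro a' ha' b' hb' h1
        rw [mem_singleton] at ha'
        subst ha'
        rcases b' with _ | t
        · exact ⟨rfl, rfl⟩
        · simp only [star] at h1
          split_ifs at h1 with h2
          rw [h2] at hb'
          simp at hb'
      · rw [card_erase_of_mem (mem_univ _), card_univ, card_singleton, hcard]; omega
    · have hst : s = t := by
        simp only [star] at h
        split_ifs at h with h2
        exact h2
      subst hst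
      refine ⟨{some s}, univ.erase none, by simp, by simp, ?_, ?_, by simp⟩
      · intro a' ha' b' hb' h1
        rw [mem_singleton] at ha'
        subst ha'
        rcases b' with _ | t
        · simp at hb'
        · simp only [star] at h1
          split_ifs at h1 with h2
          exact ⟨rfl, by rw [h2]⟩
      · rw [card_erase_of_mem (mem_univ _), card_univ, card_singleton, hcard]; omega

/-- values of rooted trees -/
inductive Tr : ℕ → ℕ → ℕ → Prop
  | base {a : ℕ} : 2 ≤ a → Tr (a + 1) a 1
  | att {k l Z Z0 z z0 : ℕ} : Tr k Z Z0 → Tr l z z0 → Tr (k + l) (Z * z + Z0 * z0) (Z0 * z)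

theorem Tr.real {k Z Z0 : ℕ} (h : Tr k Z Z0) : ∃ (ι : Type) (_ : Fintype ι) (_ : DecidableEq ι)
    (A : Matrix ι ι ℕ) (i j : ι), Fintype.card ι = k ∧ Hub A i j Z Z0 := by
  induction h with
  | @base a ha =>
    exact ⟨Option (Fin a), inferInstance, inferInstance, star a, none, none,
      by rw [Fintype.card_option, Fintype.card_fin], star_hub ha⟩
  | att _ _ h1 h2 =>
    obtain ⟨ι, _, _, A, i, j, hc, hA⟩ := h1
    obtain ⟨ι', _, _, B, i', j', hc', hB⟩ := h2
    exact ⟨ι ⊕ ι', inferInstance, inferInstance, joi A i j B i' j', Sum.inl i, Sum.inl j,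
      by rw [Fintype.card_sum, hc, hc'], hA.joi hB⟩

end Pool.Agent.H849R2.ND
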