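import Pool.Agent.H849R2.ND.Chk
import Pool.Agent.H849R2.ND.Bound

namespace Pool.Agent.H849R2.ND

open Finset

set_option linter.unusedSectionVars false
set_option linter.unusedVariables false

/-- domination of a point by a list of points, in all nonnegative directions -/
def Dom (V : List (ℕ × ℕ)) (x y : ℝ) : Prop :=
  ∀ α β : ℝ, 0 ≤ α → 0 ≤ β → ∃ v ∈ V, α * x + β * y ≤ α * (v.1 : ℝ) + β * (v.2 : ℝ)

lemma dom2_sound {p w w' : ℕ × ℕ} (h0 : p.1 ≤ w'.1) (h : dom2 p w w' = true) {α β : ℝ}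
    (hα : 0 ≤ α) (hβ : 0 ≤ β) :
    α * (p.1 : ℝ) + β * (p.2 : ℝ) ≤ α * (w.1 : ℝ) + β * (w.2 : ℝ) ∨
      α * (p.1 : ℝ) + β * (p.2 : ℝ) ≤ α * (w'.1 : ℝ) + β * (w'.2 : ℝ) := by
  unfold dom2 at h
  rw [Bool.and_eq_true, Nat.ble_eq, Nat.ble_eq] at h
  obtain ⟨h1, h2⟩ := h
  have h0' : (p.1 : ℝ) ≤ w'.1 := by exact_mod_cast h0
  have h1' : (p.2 : ℝ) ≤ w.2 := by exact_mod_cast h1
  have h2' : (w.2 : ℝ) * p.1 + w'.1 * p.2 + w.1 * w'.2 ≤ w.2 * w'.1 + p.1 * w'.2 + w.1 * p.2 := by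
    exact_mod_cast h2
  by_contra hcon
  push Not at hcon
  obtain ⟨h3, h4⟩ := hcon
  have e1 : β * ((w.2 : ℝ) - p.2) < α * ((p.1 : ℝ) - w.1) := by linarith
  have e2 : α * ((w'.1 : ℝ) - p.1) < β * ((p.2 : ℝ) - w'.2) := by linarith
  have p1 : 0 ≤ (w.2 : ℝ) - p.2 := by linarith
  have p2 : 0 ≤ (w'.1 : ℝ) - p.1 := by linarith
  have q1 : 0 ≤ β * ((w.2 : ℝ) - p.2) := mul_nonneg hβ p1
  have q2 : 0 ≤ α * ((w'.1 : ℝ) - p.1) := mul_nonneg hα p2
  have hα0 : 0 < α := by
    rcases hα.lt_or_eq with h | h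
    · exact h
    · rw [← h, zero_mul] at e1; linarith
  have hβ0 : 0 < β := by
    rcases hβ.lt_or_eq with h | h
    · exact h
    · rw [← h, zero_mul] at e2; linarith
  have e3 := mul_lt_mul'' e1 e2 q1 q2
  have e4 : ((w.2 : ℝ) - p.2) * ((w'.1 : ℝ) - p.1) < ((p.1 : ℝ) - w.1) * ((p.2 : ℝ) - w'.2) := by
    have hab : 0 < α * β := mul_pos hα0 hβ0
    by_contra hcon
    push Not at hcon
    have := mul_le_mul_of_nonneg_left hcon hab.le
    nlinarith
  nlinarith

lemma dom_sound {p : ℕ × ℕ} : ∀ (t : List (ℕ × ℕ)) (w : ℕ × ℕ), dom p w t = true →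
    Dom (w :: t) p.1 p.2 := by
  intro t
  induction t with
  | nil => intro w h; simp [dom] at h
  | cons w' t ih =>
    intro w h α β hα hβ
    unfold dom at h
    split at h
    · rename_i hb
      rw [Nat.ble_eq] at hb
      rcases dom2_sound hb h hα hβ with h1 | h1
      · exact ⟨w, by simp, h1⟩
      · exact ⟨w', by simp, h1⟩
    · obtain ⟨v, hv, hle⟩ := ih w' h α β hα hβ
      exact ⟨v, List.mem_cons_of_mem _ hv, hle⟩

lemma domL_sound {p : ℕ × ℕ} : ∀ (V : List (ℕ × ℕ)), domL p V = true → Dom V p.1 p.2 := by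
  intro V h
  cases V with
  | nil => simp [domL] at h
  | cons w t =>
    simp only [domL] at h
    split at h
    · rename_i hb
      rw [Nat.ble_eq] at hb h
      intro α β hα hβ
      refine ⟨w, by simp, ?_⟩
      have h1 : (p.1 : ℝ) ≤ w.1 := by exact_mod_cast hb
      have h2 : (p.2 : ℝ) ≤ w.2 := by exact_mod_cast h
      exact add_le_add (mul_le_mul_of_nonneg_left h1 hα) (mul_le_mul_of_nonneg_left h2 hβ)
    · exact dom_sound t w h

lemma sc_sc (s t : ℕ) (V : List (ℕ × ℕ)) : sc s (sc t V) = sc (s * t) V := by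
  unfold sc
  rw [List.map_map]
  refine List.map_congr_left fun v _ => ?_
  simp only [Function.comp, mul_assoc]

lemma H_step {k : ℕ} (hk : 41 ≤ k) : H (k + 11) = sc 27 (H k) := by
  unfold H
  rw [if_neg (by omega)]
  by_cases h : k ≤ 51
  · rw [if_pos h]
    have h1 : (k + 11 - 41) / 11 = 1 := by omega
    have h2 : 41 + (k + 11 - 41) % 11 = k := by omega
    rw [h1, h2, pow_one]
  · rw [if_neg h, sc_sc]
    have h1 : (k + 11 - 41) / 11 = (k - 41) / 11 + 1 := by omega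
    have h2 : (k + 11 - 41) % 11 = (k - 41) % 11 := by omega
    rw [h1, h2, pow_succ, mul_comm]

lemma H_step' {k : ℕ} (hk : 52 ≤ k) : H k = sc 27 (H (k - 11)) := by
  have := H_step (k := k - 11) (by omega)
  rwa [Nat.sub_add_cancel (by omega)] at this

lemma Dom.sc {V : List (ℕ × ℕ)} {x y : ℝ} (h : Dom V x y) (t : ℕ) :
    Dom (sc t V) (t * x) (t * y) := by
  intro α β hα hβ
  obtain ⟨v, hv, hle⟩ := h α β hα hβ
  refine ⟨(t * v.1, t * v.2), List.mem_map.2 ⟨v, hv, rfl⟩, ?_⟩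
  push_cast
  have ht : (0 : ℝ) ≤ t := Nat.cast_nonneg t
  have := mul_le_mul_of_nonneg_left hle ht
  linarith

lemma mem_sc {t : ℕ} {V : List (ℕ × ℕ)} {v : ℕ × ℕ} (h : v ∈ sc t V) :
    ∃ u ∈ V, v.1 = t * u.1 ∧ v.2 = t * u.2 := by
  unfold Pool.Agent.H849R2.ND.sc at h
  obtain ⟨u, hu, rfl⟩ := List.mem_map.1 h
  exact ⟨u, hu, rfl, rfl⟩

lemma mrg_comm (v u : ℕ × ℕ) : mrg v u = mrg u v := by
  unfold mrg
  ext
  · simp only; ring
  · simp only; ring

lemma H_small {k : ℕ} (hk : k ≤ 51) : H k = T k := by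
  unfold H; rw [if_pos hk]

lemma mrg_dom_small {l m : ℕ} (hl : l ≤ m) (hm : m ≤ 51) {v u : ℕ × ℕ} (hv : v ∈ H l) (hu : u ∈ H m) :
    Dom (H (l + m - 1)) (mrg v u).1 (mrg v u).2 := by
  rw [H_small (hl.trans hm)] at hv
  rw [H_small hm] at hu
  have h := chk_all hl hm
  unfold chk at h
  rw [List.all_eq_true] at h
  have h1 := h v hv
  rw [List.all_eq_true] at h1
  exact domL_sound _ (h1 u hu)

theorem mrg_dom : ∀ N l m : ℕ, l + m = N → 1 ≤ l → 1 ≤ m → ∀ v ∈ H l, ∀ u ∈ H m,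
    Dom (H (l + m - 1)) (mrg v u).1 (mrg v u).2 := by
  intro N
  induction N using Nat.strong_induction_on with
  | _ N ih =>
  intro l m hN hl hm v hv u hu
  by_cases hl52 : 52 ≤ l
  · rw [H_step' hl52] at hv
    obtain ⟨v', hv', e1, e2⟩ := mem_sc hv
    have h1 := (ih (l - 11 + m) (by omega) (l - 11) m rfl (by omega) hm v' hv' u hu).sc 27
    have h2 : l + m - 1 - 11 = l - 11 + m - 1 := by omega
    rw [H_step' (k := l + m - 1) (by omega), h2]
    convert h1 using 1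
    · simp only [mrg, e1, e2]; push_cast; ring
    · simp only [mrg, e2]; push_cast; ring
  · by_cases hm52 : 52 ≤ m
    · rw [H_step' hm52] at hu
      obtain ⟨u', hu', e1, e2⟩ := mem_sc hu
      have h1 := (ih (l + (m - 11)) (by omega) l (m - 11) rfl hl (by omega) v hv u' hu').sc 27
      have h2 : l + m - 1 - 11 = l + (m - 11) - 1 := by omega
      rw [H_step' (k := l + m - 1) (by omega), h2]
      convert h1 using 1
      · simp only [mrg, e1, e2]; push_cast; ring
      · simp only [mrg, e2]; push_cast; ring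
    · by_cases hlm : l ≤ m
      · exact mrg_dom_small hlm (by omega) hv hu
      · have := mrg_dom_small (l := m) (m := l) (by omega) (by omega) hu hv
        rw [mrg_comm v u, add_comm l m]
        exact this

theorem swp_dom : ∀ l : ℕ, ∀ v ∈ H l, Dom (H (l + 1)) v.2 v.1 := by
  intro l
  induction l using Nat.strong_induction_on with
  | _ l ih =>
  intro v hv
  by_cases hl52 : 52 ≤ l
  · rw [H_step' hl52] at hv
    obtain ⟨v', hv', e1, e2⟩ := mem_sc hv
    have h1 := (ih (l - 11) (by omega) v' hv').sc 27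
    have h2 : l + 1 - 11 = l - 11 + 1 := by omega
    rw [H_step' (k := l + 1) (by omega), h2]
    convert h1 using 1
    · rw [e2]; push_cast; ring
    · rw [e1]; push_cast; ring
  · rw [H_small (by omega)] at hv
    have h := chs_all (l := l) (by omega)
    unfold chs at h
    rw [List.all_eq_true] at h
    exact domL_sound _ (h v hv)

theorem dec_dom {c : ℕ} {w P : ℝ} (h : Dec c w P) : Dom (H (c + 1)) (P * w) P := by
  induction h with
  | zero =>
    intro α β hα hβ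
    refine ⟨(0, 1), by decide, by simp⟩
  | unit =>
    intro α β hα hβ
    refine ⟨(1, 1), by decide, by simp⟩
  | @union c1 c2 w1 w2 P1 P2 d1 d2 h1 h2 =>
    intro α β hα hβ
    have hP1 := d1.pos.2
    have hP2 := d2.pos.2
    have hx2 : 0 ≤ P2 * w2 := mul_nonneg hP2.le d2.pos.1
    obtain ⟨v, hv, hle⟩ := h1 (α * P2) (α * (P2 * w2) + β * P2) (mul_nonneg hα hP2.le)
      (add_nonneg (mul_nonneg hα hx2) (mul_nonneg hβ hP2.le))
    obtain ⟨u, hu, hle2⟩ := h2 (α * v.2) (α * v.1 + β * v.2)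
      (mul_nonneg hα (Nat.cast_nonneg _))
      (add_nonneg (mul_nonneg hα (Nat.cast_nonneg _)) (mul_nonneg hβ (Nat.cast_nonneg _)))
    have hm := mrg_dom _ (c1 + 1) (c2 + 1) rfl (by omega) (by omega) v hv u hu
    have e : c1 + 1 + (c2 + 1) - 1 = c1 + c2 + 1 := by omega
    rw [e] at hm
    obtain ⟨z, hz, hle3⟩ := hm α β hα hβ
    refine ⟨z, hz, le_trans ?_ hle3⟩
    simp only [mrg]
    push_cast
    calc α * (P1 * P2 * (w1 + w2)) + β * (P1 * P2)
        = α * P2 * (P1 * w1) + (α * (P2 * w2) + β * P2) * P1 := by ring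
      _ ≤ α * P2 * v.1 + (α * (P2 * w2) + β * P2) * v.2 := hle
      _ = α * v.2 * (P2 * w2) + (α * v.1 + β * v.2) * P2 := by ring
      _ ≤ α * v.2 * u.1 + (α * v.1 + β * v.2) * u.2 := hle2
      _ = _ := by ring
  | @tree c w P d hw h =>
    intro α β hα hβ
    obtain ⟨v, hv, hle⟩ := h β α hβ hα
    obtain ⟨z, hz, hle2⟩ := swp_dom (c + 1) v hv α β hα hβ
    refine ⟨z, hz, le_trans ?_ hle2⟩
    have e : P * w * w⁻¹ = P := by field_simp
    rw [e]
    linarith

/-- the values for orders up to forty-three -/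
def mtab : List ℕ := [0, 1, 2, 2, 3, 4, 5, 7, 10, 13, 17, 24, 33, 43, 58, 81, 109, 142, 195, 270,
  360, 471, 657, 891, 1189, 1584, 2187, 2943, 3927, 5328, 7290, 9720, 12970, 17739, 24057, 32103,
  43209, 59049, 79461, 106029, 143856, 196830, 262440, 350415]

/-- the maximum permanent -/
def M (n : ℕ) : ℕ :=
  if n ≤ 43 then mtab.getD n 0 else 27 ^ ((n - 33) / 11) * mtab.getD (33 + (n - 33) % 11) 0

lemma M_step {n : ℕ} (hn : 33 ≤ n) : M (n + 11) = 27 * M n := by
  unfold M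
  rw [if_neg (by omega)]
  by_cases h : n ≤ 43
  · rw [if_pos h]
    have h1 : (n + 11 - 33) / 11 = 1 := by omega
    have h2 : 33 + (n + 11 - 33) % 11 = n := by omega
    rw [h1, h2, pow_one]
  · rw [if_neg h]
    have h1 : (n + 11 - 33) / 11 = (n - 33) / 11 + 1 := by omega
    have h2 : (n + 11 - 33) % 11 = (n - 33) % 11 := by omega
    rw [h1, h2, pow_succ]
    ring

lemma M_step' {n : ℕ} (hn : 44 ≤ n) : M n = 27 * M (n - 11) := by
  have := M_step (n := n - 11) (by omega)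
  rwa [Nat.sub_add_cancel (by omega)] at this

lemma M_mono_small : ∀ n < 44, M n ≤ M (n + 1) := by decide +kernel

lemma M_succ : ∀ n, M n ≤ M (n + 1) := by
  intro n
  induction n using Nat.strong_induction_on with
  | _ n ih =>
  by_cases h : n < 44
  · exact M_mono_small n h
  · rw [M_step' (by omega : 44 ≤ n), M_step' (by omega : 44 ≤ n + 1)]
    have := ih (n - 11) (by omega)
    have e : n - 11 + 1 = n + 1 - 11 := by omega
    rw [e] at this
    omega

lemma M_mono : Monotone M := monotone_nat_of_le_succ M_succ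

lemma le_M_small : ∀ n < 52, ((T n).all fun v => Nat.ble v.1 (M n)) = true := by decide +kernel

lemma le_M : ∀ n, ∀ v ∈ H n, v.1 ≤ M n := by
  intro n
  induction n using Nat.strong_induction_on with
  | _ n ih =>
  intro v hv
  by_cases h : 52 ≤ n
  · rw [H_step' h] at hv
    obtain ⟨u, hu, e1, e2⟩ := mem_sc hv
    rw [M_step' (by omega : 44 ≤ n), e1]
    exact Nat.mul_le_mul_left _ (ih (n - 11) (by omega) u hu)
  · rw [H_small (by omega)] at hv
    have h1 := le_M_small n (by omega)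
    rw [List.all_eq_true] at h1
    have h2 := h1 v hv
    rwa [Nat.ble_eq] at h2

theorem Val.le {N : ℕ} {v : ℝ} (h : Val N v) : v ≤ M N := by
  obtain ⟨c, w, P, hd, hc, hvw⟩ := h
  obtain ⟨u, hu, hle⟩ := dec_dom hd 1 0 zero_le_one le_rfl
  have h1 : (u.1 : ℝ) ≤ M N := by
    exact_mod_cast (le_M _ u hu).trans (M_mono hc)
  linarith

variable {ρ κ : Type} [Fintype ρ] [Fintype κ]

theorem nd_le {n : ℕ} (hn : 3 ≤ n) (w : ρ → κ → ℝ) (hρ : Fintype.card ρ = n)
    (hκ : Fintype.card κ = n) (h01 : ∀ a b, w a b = 0 ∨ w a b = 1) (hE : Elem (supp w))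
    (hess : ∀ a b, w a b = 1 → ¬ Elem (Rem (supp w) a b)) : per w ≤ M n :=
  (nd_val hn w hρ hκ h01 hE hess).le

end Pool.Agent.H849R2.ND
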