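import Mathlib

namespace Pool.Agent.H849R2.ND

open Finset
open scoped Classical

set_option linter.unusedSectionVars false
set_option linter.unusedVariables false

/-- permanent of a matrix with row type `ρ` and column type `κ`: sum over bijective functions -/
noncomputable def per {ρ κ : Type} [Fintype ρ] [Fintype κ] (w : ρ → κ → ℝ) : ℝ :=
  ∑ g : ρ → κ, if Function.Bijective g then ∏ a, w a (g a) else 0

variable {ρ κ : Type} [Fintype ρ] [Fintype κ]

lemma per_nonneg {w : ρ → κ → ℝ} (hw : ∀ a b, 0 ≤ w a b) : 0 ≤ per w := by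
  unfold per
  refine sum_nonneg fun g _ => ?_
  split_ifs
  · exact prod_nonneg fun a _ => hw _ _
  · exact le_rfl

lemma per_mono {w w' : ρ → κ → ℝ} (hw : ∀ a b, 0 ≤ w a b) (h : ∀ a b, w a b ≤ w' a b) :
    per w ≤ per w' := by
  unfold per
  refine sum_le_sum fun g _ => ?_
  split_ifs
  · exact prod_le_prod (fun a _ => hw _ _) (fun a _ => h _ _)
  · exact le_rfl

lemma prod_rowsum (w : ρ → κ → ℝ) : (∏ a, ∑ b, w a b) = ∑ g : ρ → κ, ∏ a, w a (g a) := by
  rw [Finset.prod_univ_sum]
  simp [Fintype.piFinset_univ]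

lemma per_le_prod {w : ρ → κ → ℝ} (hw : ∀ a b, 0 ≤ w a b) : per w ≤ ∏ a, ∑ b, w a b := by
  rw [prod_rowsum]
  unfold per
  refine sum_le_sum fun g _ => ?_
  split_ifs
  · exact le_rfl
  · exact prod_nonneg fun a _ => hw _ _

/-- collapse the columns of `J` to one point -/
noncomputable def coll (J : Finset κ) (b : κ) : Option {b : κ // b ∉ J} :=
  if h : b ∈ J then none else some ⟨b, h⟩

lemma coll_mem {J : Finset κ} {b : κ} (h : b ∈ J) : coll J b = none := by simp [coll, h]

lemma coll_not_mem {J : Finset κ} {b : κ} (h : b ∉ J) : coll J b = some ⟨b, h⟩ := by simp [coll, h]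

lemma coll_eq_none {J : Finset κ} {b : κ} : coll J b = none ↔ b ∈ J := by
  by_cases h : b ∈ J <;> simp [coll, h]

lemma coll_eq_some {J : Finset κ} {b : κ} {c : {b : κ // b ∉ J}} :
    coll J b = some c ↔ b = c.1 := by
  by_cases h : b ∈ J
  · simp only [coll, h, dif_pos]
    constructor
    · intro h'; cases h'
    · intro h'; subst h'; exact absurd h c.2
  · simp only [coll, h, dif_neg, not_false_eq_true, Option.some.injEq]
    constructor
    · intro h'; rw [← h']
    · intro h'; exact Subtype.ext h'

/-- contraction of a matrix: rows of `K` removed, columns of `J` added up -/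
noncomputable def con (K : Finset ρ) (J : Finset κ) (w : ρ → κ → ℝ) :
    {a : ρ // a ∉ K} → Option {b : κ // b ∉ J} → ℝ :=
  fun a b' => ∑ b with coll J b = b', w a b

lemma con_none (K : Finset ρ) (J : Finset κ) (w : ρ → κ → ℝ) (a : {a : ρ // a ∉ K}) :
    con K J w a none = ∑ b ∈ J, w a b := by
  unfold con
  congr 1
  ext b
  simp [coll_eq_none]

lemma con_some (K : Finset ρ) (J : Finset κ) (w : ρ → κ → ℝ) (a : {a : ρ // a ∉ K})
    (b : {b : κ // b ∉ J}) : con K J w a (some b) = w a b := by
  unfold con
  have : (univ.filter fun b' : κ => coll J b' = some b) = {b.1} := by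
    ext b'
    simp [coll_eq_some]
  rw [this, sum_singleton]

lemma per_con (K : Finset ρ) (J : Finset κ) (w : ρ → κ → ℝ) :
    per (con K J w) = ∑ g : {a : ρ // a ∉ K} → κ,
      if Function.Bijective (fun a => coll J (g a)) then ∏ a, w a.1 (g a) else 0 := by
  unfold per con
  have h1 : ∀ g' : {a : ρ // a ∉ K} → Option {b : κ // b ∉ J},
      (∏ a, ∑ b with coll J b = g' a, w a.1 b) =
        ∑ g : {a : ρ // a ∉ K} → κ, if (fun a => coll J (g a)) = g' then ∏ a, w a.1 (g a) else 0 := by
    intro g'
    rw [Finset.prod_univ_sum, ← Finset.sum_filter]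
    refine Finset.sum_congr ?_ fun _ _ => rfl
    ext g
    simp only [Fintype.mem_piFinset, mem_filter, mem_univ, true_and]
    constructor
    · intro h; funext a; exact h a
    · intro h a; exact congrFun h a
  simp_rw [h1]
  have h2 : ∀ g' : {a : ρ // a ∉ K} → Option {b : κ // b ∉ J},
      (if Function.Bijective g' then
        ∑ g : {a : ρ // a ∉ K} → κ, (if (fun a => coll J (g a)) = g' then ∏ a, w a.1 (g a) else 0)
      else 0) = ∑ g : {a : ρ // a ∉ K} → κ, (if (fun a => coll J (g a)) = g' then
        (if Function.Bijective (fun a => coll J (g a)) then ∏ a, w a.1 (g a) else 0) else 0) := by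
    intro g'
    by_cases hb : Function.Bijective g'
    · rw [if_pos hb]
      refine sum_congr rfl fun g _ => ?_
      by_cases he : (fun a => coll J (g a)) = g'
      · rw [if_pos he, if_pos he, he, if_pos hb]
      · rw [if_neg he, if_neg he]
    · rw [if_neg hb]
      symm
      refine sum_eq_zero fun g _ => ?_
      by_cases he : (fun a => coll J (g a)) = g'
      · rw [if_pos he, he, if_neg hb]
      · rw [if_neg he]
  simp_rw [h2]
  rw [Finset.sum_comm]
  refine sum_congr rfl fun g _ => ?_
  rw [Finset.sum_ite_eq]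
  simp

/-- key fact: if `g` is a bijection mapping `K` into `J` and `|J| = |K|+1`, collapsing is bijective -/
lemma coll_bij {K : Finset ρ} {J : Finset κ} (hc : J.card = K.card + 1) {g : ρ → κ}
    (hg : Function.Bijective g) (hK : ∀ a ∈ K, g a ∈ J) :
    Function.Bijective (fun a : {a : ρ // a ∉ K} => coll J (g a)) := by
  have hcard : Fintype.card ρ = Fintype.card κ := Fintype.card_of_bijective hg
  have hKle : K.card ≤ Fintype.card ρ := card_le_univ K
  have hJle : J.card ≤ Fintype.card κ := card_le_univ J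
  rw [Fintype.bijective_iff_injective_and_card]
  constructor
  · intro a a' haa
    simp only at haa
    by_cases h1 : g a ∈ J
    · by_cases h2 : g a' ∈ J
      · by_contra hne
        have hne' : a.1 ≠ a'.1 := fun h => hne (Subtype.ext h)
        -- K ∪ {a, a'} maps injectively into J
        have hsub : (insert a.1 (insert a'.1 K)).image g ⊆ J := by
          intro b hb
          simp only [mem_image, mem_insert] at hb
          obtain ⟨c, hc1, rfl⟩ := hb
          rcases hc1 with rfl | rfl | hc1
          · exact h1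
          · exact h2
          · exact hK _ hc1
        have := card_le_card hsub
        rw [card_image_of_injective _ hg.1, card_insert_of_notMem, card_insert_of_notMem a'.2] at this
        · omega
        · simp only [mem_insert, not_or]
          exact ⟨hne', a.2⟩
      · rw [coll_mem h1, coll_not_mem h2] at haa
        cases haa
    · by_cases h2 : g a' ∈ J
      · rw [coll_mem h2, coll_not_mem h1] at haa
        cases haa
      · rw [coll_not_mem h1, coll_not_mem h2] at haa
        have := Option.some.inj haa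
        have := congrArg Subtype.val this
        exact Subtype.ext (hg.1 this)
  · rw [Fintype.card_option]
    have e1 : Fintype.card {a : ρ // a ∉ K} = Fintype.card ρ - K.card := by
      rw [Fintype.card_subtype_compl]; simp
    have e2 : Fintype.card {b : κ // b ∉ J} = Fintype.card κ - J.card := by
      rw [Fintype.card_subtype_compl]; simp
    rw [e1, e2]
    omega

/-- glue of two functions -/
noncomputable def glue (K : Finset ρ) (g1 : {a : ρ // a ∈ K} → κ) (g2 : {a : ρ // a ∉ K} → κ) :
    ρ → κ := (Equiv.piEquivPiSubtypeProd (fun a => a ∈ K) (fun _ => κ)).symm (g1, g2)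

lemma glue_mem {K : Finset ρ} {g1 : {a : ρ // a ∈ K} → κ} {g2 : {a : ρ // a ∉ K} → κ} {a : ρ}
    (h : a ∈ K) : glue K g1 g2 a = g1 ⟨a, h⟩ := by
  simp [glue, Equiv.piEquivPiSubtypeProd, h]

lemma glue_not_mem {K : Finset ρ} {g1 : {a : ρ // a ∈ K} → κ} {g2 : {a : ρ // a ∉ K} → κ} {a : ρ}
    (h : a ∉ K) : glue K g1 g2 a = g2 ⟨a, h⟩ := by
  simp [glue, Equiv.piEquivPiSubtypeProd, h]

lemma per_glue (K : Finset ρ) (w : ρ → κ → ℝ) :
    per w = ∑ g2 : {a : ρ // a ∉ K} → κ, ∑ g1 : {a : ρ // a ∈ K} → κ,
      if Function.Bijective (glue K g1 g2) then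
        (∏ a, w a.1 (g1 a)) * ∏ a, w a.1 (g2 a) else 0 := by
  unfold per
  rw [← (Equiv.piEquivPiSubtypeProd (fun a => a ∈ K) (fun _ => κ)).symm.sum_comp]
  rw [Fintype.sum_prod_type_right]
  refine sum_congr rfl fun g2 _ => sum_congr rfl fun g1 _ => ?_
  change (if Function.Bijective (glue K g1 g2) then ∏ a, w a (glue K g1 g2 a) else 0) = _
  split_ifs with hb
  · rw [← Fintype.prod_subtype_mul_prod_subtype (fun a => a ∈ K)]
    congr 1
    · refine prod_congr (Finset.ext fun _ => by simp) fun a _ => ?_
      rw [glue_mem a.2]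
    · refine prod_congr (Finset.ext fun _ => by simp) fun a _ => ?_
      rw [glue_not_mem a.2]
  · rfl

lemma per_le_con {K : Finset ρ} {J : Finset κ} {w : ρ → κ → ℝ} (hw : ∀ a b, 0 ≤ w a b)
    (hc : J.card = K.card + 1) (hK : ∀ a ∈ K, ∀ b ∉ J, w a b = 0) {M : ℝ} (hM0 : 0 ≤ M)
    (hM : ∀ g2 : {a : ρ // a ∉ K} → κ, (∑ g1 : {a : ρ // a ∈ K} → κ,
      if Function.Bijective (glue K g1 g2) then ∏ a, w a.1 (g1 a) else 0) ≤ M) :
    per w ≤ M * per (con K J w) := by
  rw [per_glue K, per_con, mul_sum]
  refine sum_le_sum fun g2 _ => ?_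
  by_cases hb : Function.Bijective (fun a => coll J (g2 a))
  · rw [if_pos hb]
    have : (∑ g1 : {a : ρ // a ∈ K} → κ, if Function.Bijective (glue K g1 g2) then
        (∏ a, w a.1 (g1 a)) * ∏ a, w a.1 (g2 a) else 0) =
        (∑ g1 : {a : ρ // a ∈ K} → κ, if Function.Bijective (glue K g1 g2) then
        (∏ a, w a.1 (g1 a)) else 0) * ∏ a, w a.1 (g2 a) := by
      rw [sum_mul]
      refine sum_congr rfl fun g1 _ => ?_
      split_ifs
      · rfl
      · rw [zero_mul]
    rw [this]
    exact mul_le_mul_of_nonneg_right (hM g2) (prod_nonneg fun a _ => hw _ _)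
  · rw [if_neg hb, mul_zero]
    refine le_of_eq (sum_eq_zero fun g1 _ => ?_)
    split_ifs with hb'
    · -- some row of K is mapped outside J, so the product vanishes
      by_cases hall : ∀ a ∈ K, glue K g1 g2 a ∈ J
      · exfalso
        apply hb
        have := coll_bij hc hb' hall
        convert this using 2 with a
        rw [glue_not_mem a.2]
      · push Not at hall
        obtain ⟨a, ha, hna⟩ := hall
        rw [glue_mem ha] at hna
        rw [prod_eq_zero (mem_univ (⟨a, ha⟩ : {a : ρ // a ∈ K})) (hK a ha _ hna), zero_mul]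
    · rfl

/-- the block bound -/
lemma per_le_block {K : Finset ρ} {J : Finset κ} {w : ρ → κ → ℝ} (hw : ∀ a b, 0 ≤ w a b)
    (hc : J.card = K.card + 1) (hK : ∀ a ∈ K, ∀ b ∉ J, w a b = 0) :
    per w ≤ (∏ a ∈ K, ∑ b, w a b) * per (con K J w) := by
  refine per_le_con hw hc hK (prod_nonneg fun a _ => sum_nonneg fun b _ => hw _ _) ?_
  intro g2
  have h1 : (∏ a ∈ K, ∑ b, w a b) = ∑ g1 : {a : ρ // a ∈ K} → κ, ∏ a, w a.1 (g1 a) := by
    rw [← Finset.prod_coe_sort K, Finset.prod_univ_sum]
    simp [Fintype.piFinset_univ]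
  rw [h1]
  refine sum_le_sum fun g1 _ => ?_
  split_ifs
  · exact le_rfl
  · exact prod_nonneg fun a _ => hw _ _

/-- the one-row bound -/
lemma per_le_row {x : ρ} {J : Finset κ} {w : ρ → κ → ℝ} (hw : ∀ a b, 0 ≤ w a b)
    (hc : J.card = 2) (hx : ∀ b ∉ J, w x b = 0) {M : ℝ} (hM0 : 0 ≤ M) (hM : ∀ b, w x b ≤ M) :
    per w ≤ M * per (con {x} J w) := by
  refine per_le_con hw (by simpa using hc) ?_ hM0 ?_
  · intro a ha b hb
    rw [mem_singleton] at ha
    subst ha
    exact hx b hb
  · intro g2
    by_cases hex : ∃ g1 : {a : ρ // a ∈ ({x} : Finset ρ)} → κ, Function.Bijective (glue {x} g1 g2)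
    · obtain ⟨g1, hg1⟩ := hex
      rw [sum_eq_single g1]
      · rw [if_pos hg1]
        have : (univ : Finset {a : ρ // a ∈ ({x} : Finset ρ)}) = {⟨x, mem_singleton_self x⟩} := by
          ext a
          simp only [mem_univ, mem_singleton, true_iff]
          exact Subtype.ext (mem_singleton.1 a.2)
        rw [this, prod_singleton]
        exact hM _
      · intro g1' _ hne
        rw [if_neg]
        intro hg1'
        apply hne
        funext a
        obtain ⟨a, ha⟩ := a
        have hax : a = x := mem_singleton.1 ha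
        subst hax
        by_contra hcon
        -- g1' a is hit by glue g1 at some point ≠ a
        obtain ⟨c, hc'⟩ := hg1.2 (g1' ⟨a, ha⟩)
        by_cases hca : c = a
        · subst hca
          rw [glue_mem ha] at hc'
          exact hcon hc'.symm
        · have hcm : c ∉ ({a} : Finset ρ) := by simpa using hca
          rw [glue_not_mem hcm] at hc'
          have h2 : glue {a} g1' g2 c = glue {a} g1' g2 a := by
            rw [glue_not_mem hcm, glue_mem ha, hc']
          exact hca (hg1'.1 h2)
      · intro h; exact absurd (mem_univ _) h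
    · push Not at hex
      rw [sum_eq_zero]
      · exact hM0
      · intro g1 _
        rw [if_neg (hex g1)]

/-- scaling a column -/
lemma per_scale_col {w w' : ρ → κ → ℝ} {p : κ} {s : ℝ}
    (h1 : ∀ a, w' a p = s * w a p) (h2 : ∀ a b, b ≠ p → w' a b = w a b) :
    per w' = s * per w := by
  unfold per
  rw [mul_sum]
  refine sum_congr rfl fun g _ => ?_
  split_ifs with hb
  · obtain ⟨a, ha⟩ := hb.2 p
    rw [← mul_prod_erase univ _ (mem_univ a), ← mul_prod_erase univ (fun a => w a (g a)) (mem_univ a),
      ← mul_assoc, ha, h1 a]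
    congr 1
    refine prod_congr rfl fun c hc => ?_
    rw [mem_erase] at hc
    apply h2
    intro h
    exact hc.1 (hb.1 (h.trans ha.symm))
  · rw [mul_zero]

/-- scaling a row -/
lemma per_scale_row {w w' : ρ → κ → ℝ} {x : ρ} {s : ℝ}
    (h1 : ∀ b, w' x b = s * w x b) (h2 : ∀ a b, a ≠ x → w' a b = w a b) :
    per w' = s * per w := by
  unfold per
  rw [mul_sum]
  refine sum_congr rfl fun g _ => ?_
  split_ifs with hb
  · rw [← mul_prod_erase univ _ (mem_univ x), ← mul_prod_erase univ (fun a => w a (g a)) (mem_univ x),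
      ← mul_assoc, h1]
    congr 1
    refine prod_congr rfl fun c hc => ?_
    rw [mem_erase] at hc
    exact h2 _ _ hc.1
  · rw [mul_zero]

lemma per_transpose (w : ρ → κ → ℝ) : per (fun b a => w a b) = per w := by
  unfold per
  rw [← sum_filter, ← sum_filter]
  refine sum_bij' (fun g hg => fun a => (Equiv.ofBijective g (mem_filter.1 hg).2).symm a)
    (fun g hg => fun a => (Equiv.ofBijective g (mem_filter.1 hg).2).symm a) ?_ ?_ ?_ ?_ ?_
  · intro g hg
    exact mem_filter.2 ⟨mem_univ _, (Equiv.ofBijective g (mem_filter.1 hg).2).symm.bijective⟩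
  · intro g hg
    exact mem_filter.2 ⟨mem_univ _, (Equiv.ofBijective g (mem_filter.1 hg).2).symm.bijective⟩
  · intro g hg
    funext a
    rw [Equiv.symm_apply_eq]
    change a = (Equiv.ofBijective g (mem_filter.1 hg).2).symm (g a)
    rw [Equiv.eq_symm_apply]
    rfl
  · intro g hg
    funext a
    rw [Equiv.symm_apply_eq]
    change a = (Equiv.ofBijective g (mem_filter.1 hg).2).symm (g a)
    rw [Equiv.eq_symm_apply]
    rfl
  · intro g hg
    dsimp only
    rw [← (Equiv.ofBijective g (mem_filter.1 hg).2).prod_comp]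
    refine prod_congr rfl fun b _ => ?_
    rw [Equiv.symm_apply_apply]
    rfl

end Pool.Agent.H849R2.ND
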