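import Pool.Agent.H849R2.ND.Upd

namespace Pool.Agent.H849R2.ND

open Finset
open scoped Classical

set_option linter.unusedSectionVars false
set_option linter.unusedVariables false

/-- induction hypothesis at order `n` -/
def IH (n : ℕ) : Prop :=
  ∀ (ρ κ : Type) [Fintype ρ] [Fintype κ] (c : ρ → κ → ℕ) (w P : ρ → κ → ℝ) (fr : ρ → κ → Prop),
    Fintype.card ρ = n → Fintype.card κ = n → IsCore c w P fr → ¬ (n = 2 ∧ ∀ a b, fr a b) →
    Val (n + cost c) (fac P * per w)

variable {ρ κ : Type} [Fintype ρ] [Fintype κ]
variable {c : ρ → κ → ℕ} {w P : ρ → κ → ℝ} {fr : ρ → κ → Prop}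

lemma row_sum (h : IsCore c w P fr) {x : ρ} {p q : κ} (hpq : p ≠ q)
    (hx : ∀ b, w x b ≠ 0 ↔ b = p ∨ b = q) (hfq : fr x q) :
    ∑ b, c x b = c x p ∧ ∏ b, P x b = P x p := by
  have key : ∀ b, b ≠ p → c x b = 0 ∧ P x b = 1 := by
    intro b hb
    by_cases hbq : b = q
    · subst hbq
      have := h.free _ _ hfq
      exact ⟨this.1, this.2.2⟩
    · apply h.eq_zero
      by_contra hne
      rcases (hx b).1 hne with h1 | h1
      · exact hb h1
      · exact hbq h1
  constructor
  · exact Finset.sum_eq_single p (fun b _ hb => (key b hb).1) (fun h => absurd (mem_univ _) h)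
  · exact Finset.prod_eq_single p (fun b _ hb => (key b hb).2) (fun h => absurd (mem_univ _) h)

lemma card_con_row {n : ℕ} (hρ : Fintype.card ρ = n) (x : ρ) :
    Fintype.card {a : ρ // a ∉ ({x} : Finset ρ)} = n - 1 := by
  rw [card_sub, card_singleton, hρ]

lemma card_con_col {n : ℕ} (hn : 3 ≤ n) (hκ : Fintype.card κ = n) {p q : κ} (hpq : p ≠ q) :
    Fintype.card (Option {b : κ // b ∉ ({p, q} : Finset κ)}) = n - 1 := by
  rw [card_opt _ ⟨p, by simp⟩, card_pair hpq, hκ]
  omega

lemma hK_row {x : ρ} {p q : κ} (hx : ∀ b, w x b ≠ 0 ↔ b = p ∨ b = q) :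
    ∀ a ∈ ({x} : Finset ρ), ∀ b ∉ ({p, q} : Finset κ), w a b = 0 := by
  intro a ha b hb
  rw [mem_singleton] at ha
  subst ha
  by_contra hne
  have := (hx b).1 hne
  simp at hb
  tauto

/-- contraction of a row, general form -/
lemma contract_gen {n : ℕ} (hn : 3 ≤ n) (ih : IH (n - 1)) (h : IsCore c w P fr)
    (hρ : Fintype.card ρ = n) (hκ : Fintype.card κ = n) {x : ρ} {p q : κ} (hpq : p ≠ q)
    (hx : ∀ b, w x b ≠ 0 ↔ b = p ∨ b = q) (hfq : fr x q)
    (hfree : ∀ k, ∀ hk : k ∉ ({x} : Finset ρ), ∀ j ∈ ({p, q} : Finset κ), fr k j →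
      ¬ Elem (Rem (conS {x} {p, q} (supp w)) ⟨k, hk⟩ none) ∧
        ∀ j2 ∈ ({p, q} : Finset κ), w k j2 ≠ 0 → j2 = j)
    (hn4 : ¬ (n = 3 ∧ ∀ a, conS {x} {p, q} fr a none)) :
    Val (n - 1 + cost (conC {x} {p, q} c)) (fac (conP {x} {p, q} P) * per (con {x} {p, q} w)) := by
  have hcore := con_isCore (K := {x}) (J := {p, q}) h (by omega) (by omega)
    (by rw [card_pair hpq, card_singleton]) (hK_row hx) hfree
  exact ih _ _ _ _ _ _ (card_con_row hρ x) (card_con_col hn hκ hpq) hcore
    (fun h4 => hn4 ⟨by omega, fun a => h4.2 a none⟩)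

lemma rel_row (h : IsCore c w P fr) {x : ρ} {p q : κ} (hpq : p ≠ q)
    (hx : ∀ b, w x b ≠ 0 ↔ b = p ∨ b = q) (hfq : fr x q) :
    cost c = cost (conC {x} {p, q} c) + c x p ∧ fac P = fac (conP {x} {p, q} P) * P x p := by
  have h1 := row_sum h hpq hx hfq
  constructor
  · rw [sum_conC {x} {p, q} c, sum_singleton, h1.1]
  · rw [prod_conP {x} {p, q} P, prod_singleton, h1.2]

lemma per_row (h : IsCore c w P fr) {x : ρ} {p q : κ} (hpq : p ≠ q)
    (hx : ∀ b, w x b ≠ 0 ↔ b = p ∨ b = q) (hfq : fr x q) {M : ℝ} (hM1 : 1 ≤ M) (hMp : w x p ≤ M) :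
    per w ≤ M * per (con {x} {p, q} w) := by
  refine per_le_row h.w_nonneg (card_pair hpq) (fun b hb => hK_row hx x (mem_singleton_self x) b hb)
    (zero_le_one.trans hM1) ?_
  intro b
  by_cases hb : w x b = 0
  · rw [hb]; exact zero_le_one.trans hM1
  · rcases (hx b).1 hb with rfl | rfl
    · exact hMp
    · rw [(h.free _ _ hfq).2.1]; exact hM1

/-- contraction of a row with two free entries -/
lemma contract_free {n : ℕ} (hn : 3 ≤ n) (ih : IH (n - 1)) (h : IsCore c w P fr)
    (hρ : Fintype.card ρ = n) (hκ : Fintype.card κ = n) {x : ρ} {p q : κ} (hpq : p ≠ q)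
    (hx : ∀ b, w x b ≠ 0 ↔ b = p ∨ b = q) (hfp : fr x p) (hfq : fr x q)
    (hfree : ∀ k, ∀ hk : k ∉ ({x} : Finset ρ), ∀ j ∈ ({p, q} : Finset κ), fr k j →
      ¬ Elem (Rem (conS {x} {p, q} (supp w)) ⟨k, hk⟩ none) ∧
        ∀ j2 ∈ ({p, q} : Finset κ), w k j2 ≠ 0 → j2 = j)
    (hn4 : ¬ (n = 3 ∧ ∀ a, conS {x} {p, q} fr a none)) :
    Val (n - 1 + cost c) (fac P * per w) := by
  have h1 := contract_gen hn ih h hρ hκ hpq hx hfq hfree hn4
  have h2 := rel_row h hpq hx hfq
  have hp := h.free _ _ hfp
  have h3 := per_row h hpq hx hfq le_rfl hp.2.1.le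
  rw [h2.1, h2.2, hp.1, hp.2.2, add_zero, mul_one]
  refine h1.mono le_rfl ?_
  rw [one_mul] at h3
  refine mul_le_mul_of_nonneg_left h3 ?_
  have : 0 < fac P := fac_pos h
  rw [h2.2, hp.2.2, mul_one] at this
  exact this.le

/-- a row with two free entries, one of whose columns has only one further entry, not free -/
lemma finish {n : ℕ} (hn : 3 ≤ n) (ih : IH (n - 1)) (h : IsCore c w P fr)
    (hρ : Fintype.card ρ = n) (hκ : Fintype.card κ = n) {x : ρ} {p q : κ} (hpq : p ≠ q)
    (hx : ∀ b, w x b ≠ 0 ↔ b = p ∨ b = q) (hfp : fr x p) (hfq : fr x q) {k : ρ} (hkx : k ≠ x)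
    (hkf : ¬ fr k q) (hkq : w k q ≠ 0) (hq : ∀ a, w a q ≠ 0 → a = x ∨ a = k) :
    Val (n - 1 + cost c) (fac P * per w) := by
  have hfree := row_hfree h (by omega) (by omega) hpq hx (by
    intro k' hk'x j hj hf
    rcases hj with rfl | rfl
    · by_cases hex : ∃ a, a ≠ x ∧ a ≠ k' ∧ w a j ≠ 0
      · left; exact hex
      · right
        push Not at hex
        refine ⟨k', k, ?_, hq⟩
        intro a ha
        by_contra hcon
        push Not at hcon
        exact ha (hex a hcon.1 hcon.2)
    · exfalso
      have := (hq k' (h.free_ne hf)).resolve_left hk'x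
      rw [this] at hf
      exact hkf hf)
  refine contract_free hn ih h hρ hκ hpq hx hfp hfq hfree ?_
  rintro ⟨_, hall⟩
  have hk : k ∉ ({x} : Finset ρ) := by simpa using hkx
  obtain ⟨b, hb, hfb⟩ := hall ⟨k, hk⟩
  rw [coll_eq_none] at hb
  have hb' : b = p ∨ b = q := by simpa using hb
  rcases hb' with rfl | rfl
  · have := (hfree k hk b (by simp) hfb).2 q (by simp) hkq
    exact hpq this.symm
  · exact hkf hfb

lemma upd_eq_self {β : Type} {f : ρ → κ → β} {x : ρ} {y : κ} {v : β} (h : f x y = v) :
    upd f x y v = f := by
  funext a b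
  by_cases hab : a = x ∧ b = y
  · rw [hab.1, hab.2, upd_self, h]
  · rw [upd_ne _ hab]

lemma hx_of_supp {w' : ρ → κ → ℝ} (hs : supp w' = supp w) {x : ρ} {p q : κ}
    (hx : ∀ b, w x b ≠ 0 ↔ b = p ∨ b = q) : ∀ b, w' x b ≠ 0 ↔ b = p ∨ b = q := by
  intro b
  have : supp w' x b = supp w x b := by rw [hs]
  simp only [supp] at this
  rw [this]
  exact hx b

lemma ne_of_supp {w' : ρ → κ → ℝ} (hs : supp w' = supp w) (a : ρ) (b : κ) :
    w' a b ≠ 0 ↔ w a b ≠ 0 := by
  have : supp w' a b = supp w a b := by rw [hs]
  simp only [supp] at this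
  rw [this]

theorem row_case {n : ℕ} (hn : 3 ≤ n) (ih : IH (n - 1)) (h : IsCore c w P fr)
    (hρ : Fintype.card ρ = n) (hκ : Fintype.card κ = n) {x : ρ} {p q : κ} (hpq : p ≠ q)
    (hx : ∀ b, w x b ≠ 0 ↔ b = p ∨ b = q) (hfq : fr x q) :
    Val (n + cost c) (fac P * per w) := by
  have hxp : w x p ≠ 0 := (hx p).2 (Or.inl rfl)
  have hessp : ¬ Elem (Rem (supp w) x p) :=
    ess_row (by omega) (by omega) (fun b hb => (hx b).1 hb)
  have hw0 := h.w_nonneg
  have hxppos : 0 < w x p := lt_of_le_of_ne (hw0 _ _) (Ne.symm hxp)
  by_cases h0 : ∃ k, k ≠ x ∧ fr k q ∧ ∀ a, w a q ≠ 0 → a = x ∨ a = k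
  · obtain ⟨k, hkx, hkf, hq⟩ := h0
    have hkq := h.free_ne hkf
    have hkfr := h.free _ _ hkf
    have hkn : ¬ (k = x ∧ q = p) := fun h => hkx h.1
    have hxn : ¬ (x = k ∧ p = q) := fun h => hkx h.1.symm
    have hxn' : ¬ (x = k ∧ q = q) := fun h => hkx h.1.symm
    by_cases hfp : fr x p
    · have h1 := h.upd_dec hkq Dec.unit one_ne_zero
      rw [upd_eq_self hkfr.2.1, upd_eq_self hkfr.2.2] at h1
      have hv := finish hn ih h1 hρ hκ hpq hx (by rw [upd_ne _ hxn]; exact hfp)
        (by rw [upd_ne _ hxn']; exact hfq) hkx (by rw [upd_self]; exact not_false) hkq hq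
      have hc := cost_upd c k q 1
      rw [hkfr.1] at hc
      exact hv.mono (by omega) le_rfl
    · have hd := h.dec x p hfp
      have h1 := (h.upd_free hxp hessp).upd_dec (x := k) (y := q) (by rw [upd_ne _ hkn]; exact hkq)
        hd hxp
      have hs : supp (upd (upd w x p 1) k q (w x p)) = supp w := by
        rw [supp_upd (by rw [upd_ne _ hkn]; exact hkq) hxp, supp_upd hxp one_ne_zero]
      have hv := finish hn ih h1 hρ hκ hpq (hx_of_supp hs hx)
        (by rw [upd_ne _ hxn, upd_self]; trivial)
        (by rw [upd_ne _ hxn', upd_ne _ (fun h => hpq h.2.symm)]; exact hfq) hkx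
        (by rw [upd_self]; exact not_false) ((ne_of_supp hs _ _).2 hkq)
        (fun a ha => hq a ((ne_of_supp hs _ _).1 ha))
      have hc1 := cost_upd c x p 0
      have hc2 := cost_upd (upd c x p 0) k q (c x p)
      rw [upd_ne _ hkn, hkfr.1] at hc2
      have hf1 := fac_upd P x p 1
      have hf2 := fac_upd (upd P x p 1) k q (P x p)
      rw [upd_ne _ hkn, hkfr.2.2] at hf2
      -- per
      have hp1 : per (upd (upd w x p 1) k q (w x p)) = per w := by
        set w' : ρ → κ → ℝ := fun a b => if a = x then (w x p)⁻¹ * w a b else w a b with hw'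
        have e1 : per w' = (w x p)⁻¹ * per w :=
          per_scale_row (x := x) (fun b => by simp [hw']) (fun a b hab => by simp [hw', hab])
        have e2 : per (upd (upd w x p 1) k q (w x p)) = w x p * per w' := by
          refine per_scale_col (p := q) ?_ ?_
          · intro a
            by_cases hak : a = k
            · subst hak
              rw [upd_self]
              simp only [hw', if_neg hkx, hkfr.2.1, mul_one]
            · rw [upd_ne _ (fun h => hak h.1), upd_ne _ (fun h => hpq h.2.symm)]
              by_cases hax : a = x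
              · subst hax
                simp only [hw', if_true]
                rw [mul_inv_cancel_left₀ hxp]
              · have : w a q = 0 := by
                  by_contra hne
                  rcases hq a hne with h | h
                  · exact hax h
                  · exact hak h
                simp only [hw', if_neg hax, this, mul_zero]
          · intro a b hb
            rw [upd_ne _ (fun h => hb h.2)]
            by_cases hax : a = x
            · subst hax
              by_cases hbp : b = p
              · subst hbp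
                rw [upd_self]
                simp only [hw', if_true]
                rw [inv_mul_cancel₀ hxp]
              · have : w a b = 0 := by
                  by_contra hne
                  rcases (hx b).1 hne with h | h
                  · exact hbp h
                  · exact hb h
                rw [upd_ne _ (fun h => hbp h.2)]
                simp only [hw', if_true, this, mul_zero]
            · rw [upd_ne _ (fun h => hax h.1)]
              simp only [hw', if_neg hax]
        rw [e2, e1, mul_inv_cancel_left₀ hxp]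
      have hfac : fac (upd (upd P x p 1) k q (P x p)) = fac P := by
        rw [mul_one] at hf2
        rw [hf2, hf1, mul_one]
      rw [hp1, hfac] at hv
      exact hv.mono (by omega) le_rfl
  · by_cases h1 : ∃ i0, i0 ≠ x ∧ fr i0 p ∧ ∀ a, w a p ≠ 0 → a = x ∨ a = i0
    · obtain ⟨k, hkx, hkf, hq⟩ := h1
      have hkq := h.free_ne hkf
      have hkfr := h.free _ _ hkf
      have hxn : ¬ (x = k ∧ p = p) := fun h => hkx h.1.symm
      have hxn' : ¬ (x = k ∧ q = p) := fun h => hkx h.1.symm
      have hkn : ¬ (k = x ∧ p = p) := fun h => hkx h.1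
      have hx' : ∀ b, w x b ≠ 0 ↔ b = q ∨ b = p := fun b => by rw [hx b]; tauto
      by_cases hfp : fr x p
      · have h1 := h.upd_dec hkq Dec.unit one_ne_zero
        rw [upd_eq_self hkfr.2.1, upd_eq_self hkfr.2.2] at h1
        have hv := finish hn ih h1 hρ hκ hpq.symm hx' (by rw [upd_ne _ hxn']; exact hfq)
          (by rw [upd_ne _ hxn]; exact hfp) hkx (by rw [upd_self]; exact not_false) hkq hq
        have hc := cost_upd c k p 1
        rw [hkfr.1] at hc
        exact hv.mono (by omega) le_rfl
      · have hd := (h.dec x p hfp).tree hxppos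
        have hinv : (w x p)⁻¹ ≠ 0 := inv_ne_zero hxp
        have h1 := (h.upd_free hxp hessp).upd_dec (x := k) (y := p)
          (by rw [upd_ne _ hkn]; exact hkq) hd hinv
        have hs : supp (upd (upd w x p 1) k p (w x p)⁻¹) = supp w := by
          rw [supp_upd (by rw [upd_ne _ hkn]; exact hkq) hinv, supp_upd hxp one_ne_zero]
        have hv := finish hn ih h1 hρ hκ hpq.symm (hx_of_supp hs hx')
          (by rw [upd_ne _ hxn', upd_ne _ (fun h => hpq h.2.symm)]; exact hfq)
          (by rw [upd_ne _ hxn, upd_self]; trivial) hkx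
          (by rw [upd_self]; exact not_false) ((ne_of_supp hs _ _).2 hkq)
          (fun a ha => hq a ((ne_of_supp hs _ _).1 ha))
        have hc1 := cost_upd c x p 0
        have hc2 := cost_upd (upd c x p 0) k p (c x p + 1)
        rw [upd_ne _ hkn, hkfr.1] at hc2
        have hf1 := fac_upd P x p 1
        have hf2 := fac_upd (upd P x p 1) k p (P x p * w x p)
        rw [upd_ne _ hkn, hkfr.2.2] at hf2
        have hp1 : per (upd (upd w x p 1) k p (w x p)⁻¹) = (w x p)⁻¹ * per w := by
          refine per_scale_col (p := p) ?_ ?_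
          · intro a
            by_cases hak : a = k
            · subst hak
              rw [upd_self, hkfr.2.1, mul_one]
            · rw [upd_ne _ (fun h => hak h.1)]
              by_cases hax : a = x
              · subst hax
                rw [upd_self, inv_mul_cancel₀ hxp]
              · rw [upd_ne _ (fun h => hax h.1)]
                have : w a p = 0 := by
                  by_contra hne
                  rcases hq a hne with h | h
                  · exact hax h
                  · exact hak h
                rw [this, mul_zero]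
          · intro a b hb
            rw [upd_ne _ (fun h => hb h.2), upd_ne _ (fun h => hb h.2)]
        have hfac : fac (upd (upd P x p 1) k p (P x p * w x p)) = fac P * w x p := by
          rw [mul_one] at hf2
          rw [hf2, ← mul_assoc, hf1, mul_one]
        rw [hp1, hfac, mul_assoc, mul_inv_cancel_left₀ hxp] at hv
        exact hv.mono (by omega) le_rfl
    · -- generic case
      have hfree := row_hfree h (by omega) (by omega) hpq hx (by
        intro k hkx j hj hf
        left
        by_contra hcon
        push Not at hcon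
        rcases hj with rfl | rfl
        · apply h1
          refine ⟨k, hkx, hf, fun a ha => ?_⟩
          by_contra hc
          push Not at hc
          exact ha (hcon a hc.1 hc.2)
        · apply h0
          refine ⟨k, hkx, hf, fun a ha => ?_⟩
          by_contra hc
          push Not at hc
          exact ha (hcon a hc.1 hc.2))
      have hn4 : ¬ (n = 3 ∧ ∀ a, conS {x} {p, q} fr a none) := by
        rintro ⟨hn3, hall⟩
        -- pick a row different from x
        have hne : (univ.erase x).Nonempty := by
          rw [← card_pos, card_erase_of_mem (mem_univ x), card_univ]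
          omega
        obtain ⟨k, hk⟩ := hne
        rw [mem_erase] at hk
        have hkm : k ∉ ({x} : Finset ρ) := by simpa using hk.1
        obtain ⟨j, hj, hf⟩ := hall ⟨k, hkm⟩
        rw [coll_eq_none] at hj
        have hj' : j = p ∨ j = q := by simpa using hj
        -- another row with an entry in column j
        have hex : ∃ a, a ≠ x ∧ a ≠ k ∧ w a j ≠ 0 := by
          by_contra hcon
          push Not at hcon
          rcases hj' with rfl | rfl
          · apply h1
            refine ⟨k, hk.1, hf, fun a ha => ?_⟩
            by_contra hc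
            push Not at hc
            exact ha (hcon a hc.1 hc.2)
          · apply h0
            refine ⟨k, hk.1, hf, fun a ha => ?_⟩
            by_contra hc
            push Not at hc
            exact ha (hcon a hc.1 hc.2)
        obtain ⟨a, hax, hak, haj⟩ := hex
        have ham : a ∉ ({x} : Finset ρ) := by simpa using hax
        obtain ⟨j2, hj2, hf2⟩ := hall ⟨a, ham⟩
        rw [coll_eq_none] at hj2
        have hjj : j = j2 := (hfree a ham j2 hj2 hf2).2 j hj haj
        subst hjj
        -- the other column
        obtain ⟨o, ho, hoj⟩ : ∃ o ∈ ({p, q} : Finset κ), o ≠ j := by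
          rcases hj' with rfl | rfl
          · exact ⟨q, by simp, hpq.symm⟩
          · exact ⟨p, by simp, hpq⟩
        refine not_elem_col (by omega) (c := o) (k := x) ?_ h.elem
        intro a' ha'
        by_contra ha'x
        -- a' is k or a
        have : ({x, k, a} : Finset ρ).card = 3 := by
          rw [card_insert_of_notMem, card_pair hak.symm]
          simp only [mem_insert, mem_singleton, not_or]
          exact ⟨hk.1.symm, hax.symm⟩
        have hu : ({x, k, a} : Finset ρ) = univ := by
          rw [← card_eq_iff_eq_univ, this, hρ, hn3]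
        have hm : a' ∈ ({x, k, a} : Finset ρ) := by rw [hu]; exact mem_univ _
        simp only [mem_insert, mem_singleton] at hm
        rcases hm with h' | h' | h'
        · exact ha'x h'
        · subst h'
          exact hoj ((hfree a' hkm j hj hf).2 o ho ha')
        · subst h'
          exact hoj ((hfree a' ham j hj hf2).2 o ho ha')
      by_cases hfp : fr x p
      · exact (contract_free hn ih h hρ hκ hpq hx hfp hfq hfree hn4).mono (by omega) le_rfl
      · have hd := h.dec x p hfp
        have hv := contract_gen hn ih h hρ hκ hpq hx hfq hfree hn4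
        have hrel := rel_row h hpq hx hfq
        have hcn : 0 ≤ per (con {x} {p, q} w) := per_nonneg fun a b => sum_nonneg fun _ _ => hw0 _ _
        have hfp' : 0 < fac (conP {x} {p, q} P) := by
          have h1 := fac_pos h
          rw [hrel.2] at h1
          exact pos_of_mul_pos_left h1 hd.pos.2.le
        by_cases hr : 1 ≤ w x p
        · have hp := per_row h hpq hx hfq hr le_rfl
          have hm := Val.mul hd.val hv (mul_nonneg hd.pos.2.le hd.pos.1)
            (mul_nonneg hfp'.le hcn)
          refine hm.mono (by rw [hrel.1]; omega) ?_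
          rw [hrel.2]
          calc fac (conP {x} {p, q} P) * P x p * per w
              ≤ fac (conP {x} {p, q} P) * P x p * (w x p * per (con {x} {p, q} w)) :=
                mul_le_mul_of_nonneg_left hp (mul_nonneg hfp'.le hd.pos.2.le)
            _ = _ := by ring
        · push Not at hr
          have hp := per_row h hpq hx hfq le_rfl hr.le
          rw [one_mul] at hp
          have hcore := con_isCore (K := {x}) (J := {p, q}) h (by omega) (by omega)
            (by rw [card_pair hpq, card_singleton]) (hK_row hx) hfree
          -- a nonzero entry in the merged column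
          obtain ⟨a0, ha0⟩ : ∃ a, con {x} {p, q} w a none ≠ 0 := by
            by_contra hcon
            push Not at hcon
            have hc1 : 2 ≤ Fintype.card {a : ρ // a ∉ ({x} : Finset ρ)} := by
              rw [card_con_row hρ]; omega
            obtain ⟨a⟩ : Nonempty {a : ρ // a ∉ ({x} : Finset ρ)} := by
              rw [← Fintype.card_pos_iff]; omega
            exact not_elem_col hc1 (c := none) (k := a) (fun a' ha' => absurd (hcon a') ha')
              hcore.elem
          obtain ⟨c0, w0, P0, hd0, hc0, hw0', hP0⟩ : ∃ c0 w0 P0, Dec c0 w0 P0 ∧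
              c0 ≤ conC {x} {p, q} c a0 none + 1 ∧ con {x} {p, q} w a0 none = w0 ∧
              conP {x} {p, q} P a0 none = P0 := by
            by_cases hf0 : conS {x} {p, q} fr a0 none
            · have := hcore.free _ _ hf0
              exact ⟨1, 1, 1, Dec.unit, by omega, this.2.1, this.2.2⟩
            · exact ⟨_, _, _, hcore.dec _ _ hf0, by omega, rfl, rfl⟩
          have hdu := Dec.union hd0 hd
          have hne : w0 + w x p ≠ 0 := by
            have := hd0.pos.1
            linarith
          have hcore2 := hcore.upd_dec ha0 hdu hne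
          have hv2 := ih _ _ _ _ _ _ (card_con_row hρ x) (card_con_col hn hκ hpq) hcore2
            (by
              rintro ⟨_, hall⟩
              have := hall a0 none
              rw [upd_self] at this
              exact this)
          have hc := cost_upd (conC {x} {p, q} c) a0 none (c0 + c x p)
          have hf := fac_upd (conP {x} {p, q} P) a0 none (P0 * P x p)
          rw [hP0, ← mul_assoc, mul_right_comm] at hf
          have hP0' : P0 ≠ 0 := hd0.pos.2.ne'
          have hf' := mul_right_cancel₀ hP0' hf
          refine hv2.mono (by rw [hrel.1]; omega) ?_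
          rw [hf', hrel.2]
          refine mul_le_mul_of_nonneg_left (hp.trans ?_) (mul_nonneg hfp'.le hd.pos.2.le)
          refine per_mono (fun a b => sum_nonneg fun _ _ => hw0 _ _) ?_
          intro a b
          by_cases hab : a = a0 ∧ b = none
          · rw [hab.1, hab.2, upd_self, hw0']
            linarith
          · rw [upd_ne _ hab]

end Pool.Agent.H849R2.ND
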