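import Pool.Agent.H849R2.ND.Per

namespace Pool.Agent.H849R2.ND

open Finset
open scoped Classical

set_option linter.unusedSectionVars false
set_option linter.unusedVariables false

variable {ρ κ : Type} [Fintype ρ] [Fintype κ]

/-- full indecomposability of a support -/
def Elem (S : ρ → κ → Prop) : Prop :=
  ∀ (Q : Finset ρ) (Y : Finset κ), Q.Nonempty → Y.Nonempty →
    (∀ a ∈ Q, ∀ b ∈ Y, ¬ S a b) → Q.card + Y.card < Fintype.card ρ

/-- the support with the entry `(x,y)` removed -/
def Rem (S : ρ → κ → Prop) (x : ρ) (y : κ) : ρ → κ → Prop := fun a b => S a b ∧ ¬ (a = x ∧ b = y)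

/-- a cut for the entry `(x,y)` -/
structure Cut (S : ρ → κ → Prop) (x : ρ) (y : κ) (Q : Finset ρ) (Y : Finset κ) : Prop where
  hx : x ∈ Q
  hy : y ∈ Y
  hz : ∀ a ∈ Q, ∀ b ∈ Y, S a b → a = x ∧ b = y
  hc : Q.card + Y.card = Fintype.card ρ

lemma Elem.transpose {S : ρ → κ → Prop} (hcard : Fintype.card ρ = Fintype.card κ) (hS : Elem S) :
    Elem (fun b a => S a b) := by
  intro Y Q hY hQ h
  have := hS Q Y hQ hY (fun a ha b hb => h b hb a ha)
  omega

/-- a block with a single nonzero entry is not too large -/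
lemma Elem.single_le {S : ρ → κ → Prop} (hcard : Fintype.card ρ = Fintype.card κ)
    (h2 : 2 ≤ Fintype.card ρ) (hS : Elem S) {x : ρ} {y : κ} {Q : Finset ρ} {Y : Finset κ}
    (hx : x ∈ Q) (hy : y ∈ Y) (hz : ∀ a ∈ Q, ∀ b ∈ Y, S a b → a = x ∧ b = y) :
    Q.card + Y.card ≤ Fintype.card ρ := by
  by_contra hcon
  push Not at hcon
  by_cases hQ : (Q.erase x).Nonempty
  · have := hS (Q.erase x) Y hQ ⟨y, hy⟩ (fun a ha b hb hab => by
      rw [mem_erase] at ha
      exact ha.1 (hz a ha.2 b hb hab).1)
    rw [card_erase_of_mem hx] at this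
    have : 0 < Q.card := card_pos.2 ⟨x, hx⟩
    omega
  · rw [not_nonempty_iff_eq_empty, erase_eq_empty_iff] at hQ
    have hQ' : Q = {x} := by
      rcases hQ with h | h
      · rw [h] at hx; simp at hx
      · exact h
    subst hQ'
    rw [card_singleton] at hcon
    have hYc : Y.card = Fintype.card κ := le_antisymm (card_le_univ Y) (by omega)
    have hYne : (Y.erase y).Nonempty := by
      rw [← card_pos, card_erase_of_mem hy]
      omega
    have := hS {x} (Y.erase y) ⟨x, hx⟩ hYne (fun a ha b hb hab => by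
      rw [mem_erase] at hb
      exact hb.1 (hz a ha b hb.2 hab).2)
    rw [card_erase_of_mem hy, card_singleton] at this
    omega

lemma exists_cut {S : ρ → κ → Prop} (hcard : Fintype.card ρ = Fintype.card κ)
    (h2 : 2 ≤ Fintype.card ρ) (hS : Elem S) {x : ρ} {y : κ} (h : ¬ Elem (Rem S x y)) :
    ∃ Q Y, Cut S x y Q Y := by
  unfold Elem at h
  push Not at h
  obtain ⟨Q, Y, hQ, hY, hz, hc⟩ := h
  have hz' : ∀ a ∈ Q, ∀ b ∈ Y, S a b → a = x ∧ b = y := by
    intro a ha b hb hab
    by_contra hne
    exact hz a ha b hb ⟨hab, hne⟩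
  by_cases hxy : x ∈ Q ∧ y ∈ Y
  · exact ⟨Q, Y, hxy.1, hxy.2, hz', le_antisymm (hS.single_le hcard h2 hxy.1 hxy.2 hz') hc⟩
  · exfalso
    have := hS Q Y hQ hY (fun a ha b hb hab => by
      obtain ⟨rfl, rfl⟩ := hz' a ha b hb hab
      exact hxy ⟨ha, hb⟩)
    omega

lemma Cut.not_elem {S : ρ → κ → Prop} {x : ρ} {y : κ} {Q : Finset ρ} {Y : Finset κ}
    (h : Cut S x y Q Y) : ¬ Elem (Rem S x y) := by
  intro hE
  have := hE Q Y ⟨x, h.hx⟩ ⟨y, h.hy⟩ (fun a ha b hb hab => hab.2 (h.hz a ha b hb hab.1))
  have := h.hc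
  omega

/-- a column with at most one entry -/
lemma not_elem_col {S : ρ → κ → Prop} (h2 : 2 ≤ Fintype.card ρ) {c : κ} {k : ρ}
    (h : ∀ a, S a c → a = k) : ¬ Elem S := by
  intro hE
  have hne : (univ.erase k).Nonempty := by
    rw [← card_pos, card_erase_of_mem (mem_univ k), card_univ]
    omega
  have := hE (univ.erase k) {c} hne ⟨c, mem_singleton_self c⟩ (fun a ha b hb hab => by
    rw [mem_singleton] at hb
    subst hb
    rw [mem_erase] at ha
    exact ha.1 (h a hab))
  rw [card_erase_of_mem (mem_univ k), card_univ, card_singleton] at this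
  omega

/-- a row with at most one entry -/
lemma not_elem_row {S : ρ → κ → Prop} (hcard : Fintype.card ρ = Fintype.card κ)
    (h2 : 2 ≤ Fintype.card ρ) {c : ρ} {k : κ}
    (h : ∀ b, S c b → b = k) : ¬ Elem S := fun hE =>
  not_elem_col (S := fun b a => S a b) (by omega) h (hE.transpose hcard)

lemma Elem.exists_row {S : ρ → κ → Prop} (hcard : Fintype.card ρ = Fintype.card κ)
    (hS : Elem S) (x : ρ) : ∃ b, S x b := by
  by_contra hcon
  push Not at hcon
  have hpos : 0 < Fintype.card ρ := Fintype.card_pos_iff.2 ⟨x⟩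
  have : Nonempty κ := Fintype.card_pos_iff.1 (by omega)
  have := hS {x} univ ⟨x, mem_singleton_self x⟩ univ_nonempty (fun a ha b _ hab => by
    rw [mem_singleton] at ha
    subst ha
    exact hcon b hab)
  rw [card_singleton, card_univ] at this
  omega

/-- contraction of a support -/
def conS (K : Finset ρ) (J : Finset κ) (S : ρ → κ → Prop) :
    {a : ρ // a ∉ K} → Option {b : κ // b ∉ J} → Prop :=
  fun a b' => ∃ b, coll J b = b' ∧ S a b

lemma card_sub (K : Finset ρ) : Fintype.card {a : ρ // a ∉ K} = Fintype.card ρ - K.card := by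
  rw [Fintype.card_subtype_compl]; simp

lemma card_opt (J : Finset κ) (hJ : J.Nonempty) :
    Fintype.card (Option {b : κ // b ∉ J}) = Fintype.card κ - J.card + 1 := by
  rw [Fintype.card_option, card_sub]

section con

variable {S : ρ → κ → Prop} {K : Finset ρ} {J : Finset κ}

lemma elem_con (hcard : Fintype.card ρ = Fintype.card κ) (hS : Elem S)
    (hc : J.card = K.card + 1) (hK : ∀ a ∈ K, ∀ b ∉ J, ¬ S a b) :
    Elem (conS K J S) := by
  intro Q' Y' hQ hY hz
  have hKle : K.card ≤ Fintype.card ρ := card_le_univ K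
  have hJle : J.card ≤ Fintype.card κ := card_le_univ J
  rw [card_sub]
  set Q : Finset ρ := Q'.map (Function.Embedding.subtype _) with hQdef
  have hQc : Q.card = Q'.card := card_map _
  have hQK : Disjoint Q K := by
    rw [disjoint_left]
    intro a ha
    rw [hQdef, mem_map] at ha
    obtain ⟨a', _, rfl⟩ := ha
    exact a'.2
  have hQne : Q.Nonempty := by rw [hQdef]; exact (map_nonempty).2 hQ
  -- the columns of Y' other than none
  set Y1 : Finset κ := univ.filter fun b => b ∉ J ∧ coll J b ∈ Y' with hY1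
  have hY1J : Disjoint Y1 J := by
    rw [disjoint_left]
    intro b hb
    rw [hY1, mem_filter] at hb
    exact hb.2.1
  have hY1c : Y1.card = (Y'.erase none).card := by
    refine card_bij (fun b _ => coll J b) ?_ ?_ ?_
    · intro b hb
      rw [hY1, mem_filter] at hb
      rw [mem_erase]
      refine ⟨?_, hb.2.2⟩
      rw [Ne, coll_eq_none]
      exact hb.2.1
    · intro b hb b2 hb2 h
      rw [hY1, mem_filter] at hb hb2
      rw [coll_not_mem hb.2.1, coll_not_mem hb2.2.1] at h
      exact congrArg Subtype.val (Option.some.inj h)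
    · intro b' hb'
      rw [mem_erase] at hb'
      obtain _ | b := b'
      · exact absurd rfl hb'.1
      · refine ⟨b.1, ?_, coll_not_mem b.2⟩
        rw [hY1, mem_filter]
        exact ⟨mem_univ _, b.2, by rw [coll_not_mem b.2]; exact hb'.2⟩
  have hz1 : ∀ a ∈ Q, ∀ b, coll J b ∈ Y' → ¬ S a b := by
    intro a ha b hb hab
    rw [hQdef, mem_map] at ha
    obtain ⟨a', ha', rfl⟩ := ha
    exact hz a' ha' _ hb ⟨b, rfl, hab⟩
  by_cases hn : none ∈ Y'
  · have h1 := hS Q (Y1 ∪ J) hQne (by
      have : J.Nonempty := by rw [← card_pos]; omega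
      exact this.mono subset_union_right) (fun a ha b hb => by
      rw [mem_union] at hb
      rcases hb with hb | hb
      · rw [hY1, mem_filter] at hb
        exact hz1 a ha b hb.2.2
      · exact hz1 a ha b (by rw [coll_mem hb]; exact hn))
    rw [card_union_of_disjoint hY1J, hY1c, card_erase_of_mem hn] at h1
    have : 0 < Y'.card := card_pos.2 hY
    omega
  · have he : Y'.erase none = Y' := erase_eq_of_notMem hn
    rw [he] at hY1c
    have h1 := hS (Q ∪ K) Y1 (hQne.mono subset_union_left) (by
        rw [← card_pos, hY1c]; exact card_pos.2 hY) (fun a ha b hb => by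
      rw [mem_union] at ha
      rw [hY1, mem_filter] at hb
      rcases ha with ha | ha
      · exact hz1 a ha b hb.2.2
      · exact hK a ha b hb.2.1)
    rw [card_union_of_disjoint hQK] at h1
    omega

/-- behaviour of essential entries under contraction -/
lemma con_ess (hcard : Fintype.card ρ = Fintype.card κ) (hS : Elem S)
    (hc : J.card = K.card + 1) (hK : ∀ a ∈ K, ∀ b ∉ J, ¬ S a b)
    {k : ρ} {j : κ} (hk : k ∉ K) {Q : Finset ρ} {Y : Finset κ} (hf : Cut S k j Q Y) :
    (¬ Elem (Rem (conS K J S) ⟨k, hk⟩ (coll J j)) ∧ (j ∈ J → ∀ j2 ∈ J, S k j2 → j2 = j)) ∨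
    (j ∈ J ∧ ∃ Q0 ⊆ K, ∃ Y0 ⊆ J, j ∈ Y0 ∧ Q0.card = Y0.card ∧
      ∀ b ∈ Y0, ∀ a, S a b → a ∈ Q0 ∨ (a = k ∧ b = j)) := by
  have hKle : K.card ≤ Fintype.card ρ := card_le_univ K
  have hJle : J.card ≤ Fintype.card κ := card_le_univ J
  by_cases hJY : J ⊆ Y
  · -- case (a)
    left
    have hQK : Disjoint Q K := by
      rw [disjoint_left]
      intro a haQ haK
      obtain ⟨b, hb⟩ := hS.exists_row hcard a
      by_cases hbJ : b ∈ J
      · exact hk ((hf.hz a haQ b (hJY hbJ) hb).1 ▸ haK)
      · exact hK a haK b hbJ hb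
    refine ⟨?_, fun hj j2 hj2 h => (hf.hz k hf.hx j2 (hJY hj2) h).2⟩
    intro hE
    set Q' : Finset {a : ρ // a ∉ K} := univ.filter fun a => a.1 ∈ Q with hQ'
    have hQ'c : Q'.card = Q.card := by
      refine card_bij (fun a _ => a.1) ?_ ?_ ?_
      · intro a ha; rw [hQ', mem_filter] at ha; exact ha.2
      · intro a _ b _ h; exact Subtype.ext h
      · intro a ha
        exact ⟨⟨a, disjoint_left.1 hQK ha⟩, by rw [hQ', mem_filter]; exact ⟨mem_univ _, ha⟩, rfl⟩
    have hY'c : (Y.image (coll J)).card = Y.card - J.card + 1 := by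
      have h1 : Y.image (coll J) = insert none ((Y \ J).image (coll J)) := by
        ext b'
        simp only [mem_image, mem_insert, mem_sdiff]
        constructor
        · rintro ⟨b, hb, rfl⟩
          by_cases hbJ : b ∈ J
          · left; exact coll_mem hbJ
          · right; exact ⟨b, ⟨hb, hbJ⟩, rfl⟩
        · rintro (rfl | ⟨b, hb, rfl⟩)
          · obtain ⟨b, hb⟩ : J.Nonempty := by rw [← card_pos]; omega
            exact ⟨b, hJY hb, coll_mem hb⟩
          · exact ⟨b, hb.1, rfl⟩
      rw [h1, card_insert_of_notMem, card_image_of_injOn, card_sdiff_of_subset hJY]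
      · intro b hb b2 hb2 h
        rw [mem_coe, mem_sdiff] at hb hb2
        rw [coll_not_mem hb.2, coll_not_mem hb2.2] at h
        exact congrArg Subtype.val (Option.some.inj h)
      · simp only [mem_image, mem_sdiff, not_exists, not_and]
        rintro b ⟨_, hb⟩ h
        rw [coll_eq_none] at h
        exact hb h
    have h1 := hE Q' (Y.image (coll J))
      ⟨⟨k, hk⟩, by rw [hQ', mem_filter]; exact ⟨mem_univ _, hf.hx⟩⟩
      ⟨_, mem_image_of_mem _ hf.hy⟩ (fun a ha b' hb' hab => by
        rw [hQ', mem_filter] at ha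
        rw [mem_image] at hb'
        obtain ⟨b0, hb0, hb0'⟩ := hb'
        obtain ⟨⟨b, hb, hSab⟩, hne⟩ := hab
        have hbY : b ∈ Y := by
          by_cases hbJ : b ∈ J
          · exact hJY hbJ
          · rw [← hb0', coll_not_mem hbJ] at hb
            have := coll_eq_some.1 hb.symm
            rw [this] at hb0
            exact hb0
        obtain ⟨h1, h2⟩ := hf.hz a.1 ha.2 b hbY hSab
        apply hne
        refine ⟨Subtype.ext h1, ?_⟩
        rw [← hb, h2])
    rw [hQ'c, hY'c, card_sub] at h1
    have := hf.hc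
    have := card_le_card hJY
    omega
  · -- case (b)
    have hYJ : (Y ∩ J).card ≤ K.card := by
      have : (Y ∩ J).card < J.card := by
        apply card_lt_card
        rw [ssubset_iff_subset_ne]
        refine ⟨inter_subset_right, fun h => hJY ?_⟩
        rw [← h]; exact inter_subset_left
      omega
    have hmain : (Q ∩ K).card + (Y ∩ J).card ≤ K.card := by
      by_cases hQK : (Q ∩ K).Nonempty
      · have h1 := hS (Q ∩ K) (Y ∪ Jᶜ) hQK ⟨j, mem_union_left _ hf.hy⟩ (fun a ha b hb hab => by
          rw [mem_inter] at ha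
          rw [mem_union, mem_compl] at hb
          rcases hb with hb | hb
          · exact hk ((hf.hz a ha.1 b hb hab).1 ▸ ha.2)
          · exact hK a ha.2 b hb hab)
        have h2 : (Y ∪ Jᶜ).card = (Y ∩ J).card + Jᶜ.card := by
          rw [← card_union_of_disjoint]
          · congr 1
            ext b
            simp only [mem_union, mem_compl, mem_inter]
            tauto
          · rw [disjoint_left]
            intro b hb hb'
            rw [mem_inter] at hb
            rw [mem_compl] at hb'
            exact hb' hb.2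
        rw [h2, card_compl] at h1
        omega
      · rw [not_nonempty_iff_eq_empty] at hQK
        rw [hQK, card_empty]
        omega
    have hQs : (Q \ K).card = Q.card - (Q ∩ K).card := by
      rw [card_sdiff, inter_comm]
    have hYs : (Y \ J).card = Y.card - (Y ∩ J).card := by
      rw [card_sdiff, inter_comm]
    have hQi : (Q ∩ K).card ≤ Q.card := card_le_card inter_subset_left
    have hYi : (Y ∩ J).card ≤ Y.card := card_le_card inter_subset_left
    have hfc := hf.hc
    by_cases hj : j ∈ J
    · right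
      refine ⟨hj, ?_⟩
      have hYsub : Y \ J = ∅ := by
        by_contra hne
        rw [← Ne, ← nonempty_iff_ne_empty] at hne
        have h1 := hS (Q ∪ K) (Y \ J) ⟨k, mem_union_left _ hf.hx⟩ hne (fun a ha b hb hab => by
          rw [mem_union] at ha
          rw [mem_sdiff] at hb
          rcases ha with ha | ha
          · exact hb.2 ((hf.hz a ha b hb.1 hab).2 ▸ hj)
          · exact hK a ha b hb.2 hab)
        have h2 : (Q ∪ K).card + (Q ∩ K).card = Q.card + K.card := card_union_add_card_inter Q K
        omega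
      have hYJ' : Y ⊆ J := by rwa [sdiff_eq_empty_iff_subset] at hYsub
      have hYe : Y ∩ J = Y := inter_eq_left.2 hYJ'
      have hKQ : (K \ Q).card = K.card - (Q ∩ K).card := by
        rw [card_sdiff]
      have hQcle : Qᶜ.card = Fintype.card ρ - Q.card := card_compl Q
      have hsub : K \ Q ⊆ Qᶜ := by
        intro a ha
        rw [mem_sdiff] at ha
        rw [mem_compl]
        exact ha.2
      have hQle : Q.card ≤ Fintype.card ρ := card_le_univ Q
      rw [hYe] at hmain
      have heq : K \ Q = Qᶜ := by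
        apply eq_of_subset_of_card_le hsub
        omega
      refine ⟨Qᶜ, ?_, Y, hYJ', hf.hy, by omega, ?_⟩
      · rw [← heq]; exact sdiff_subset
      · intro b hb a hab
        by_cases ha : a ∈ Q
        · right; exact hf.hz a ha b hb hab
        · left; rw [mem_compl]; exact ha
    · left
      refine ⟨?_, fun h => absurd h hj⟩
      intro hE
      set Q' : Finset {a : ρ // a ∉ K} := univ.filter fun a => a.1 ∈ Q with hQ'
      have hQ'c : Q'.card = (Q \ K).card := by
        refine card_bij (fun a _ => a.1) ?_ ?_ ?_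
        · intro a ha; rw [hQ', mem_filter] at ha; rw [mem_sdiff]; exact ⟨ha.2, a.2⟩
        · intro a _ b _ h; exact Subtype.ext h
        · intro a ha
          rw [mem_sdiff] at ha
          exact ⟨⟨a, ha.2⟩, by rw [hQ', mem_filter]; exact ⟨mem_univ _, ha.1⟩, rfl⟩
      have hY'c : ((Y \ J).image (coll J)).card = (Y \ J).card := by
        rw [card_image_of_injOn]
        intro b hb b2 hb2 h
        rw [mem_coe, mem_sdiff] at hb hb2
        rw [coll_not_mem hb.2, coll_not_mem hb2.2] at h
        exact congrArg Subtype.val (Option.some.inj h)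
      have h1 := hE Q' ((Y \ J).image (coll J))
        ⟨⟨k, hk⟩, by rw [hQ', mem_filter]; exact ⟨mem_univ _, hf.hx⟩⟩
        ⟨_, mem_image_of_mem _ (mem_sdiff.2 ⟨hf.hy, hj⟩)⟩ (fun a ha b' hb' hab => by
          rw [hQ', mem_filter] at ha
          rw [mem_image] at hb'
          obtain ⟨b0, hb0, hb0'⟩ := hb'
          rw [mem_sdiff] at hb0
          obtain ⟨⟨b, hb, hSab⟩, hne⟩ := hab
          have hbb : b = b0 := by
            rw [← hb0', coll_not_mem hb0.2] at hb
            exact coll_eq_some.1 hb
          subst hbb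
          obtain ⟨h1, h2⟩ := hf.hz a.1 ha.2 b hb0.1 hSab
          apply hne
          refine ⟨Subtype.ext h1, ?_⟩
          rw [← hb, h2])
      rw [hQ'c, hY'c, card_sub] at h1
      omega

end con

/-- no essential entries in the other rows of a minimal cut -/
lemma min_cut_aux {S : ρ → κ → Prop} (hcard : Fintype.card ρ = Fintype.card κ)
    (h2 : 2 ≤ Fintype.card ρ) (hS : Elem S) {x x1 : ρ} {y j1 : κ} {A : Finset ρ} {B : Finset κ}
    {Q : Finset ρ} {Y : Finset κ} (hxy : S x y) (hf1 : S x1 j1)
    (he : Cut S x y A B) (hf : Cut S x1 j1 Q Y) (hx1A : x1 ∈ A) (hne : x1 ≠ x)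
    (hmin : ∀ A' B', Cut S x1 j1 A' B' → A.card ≤ A'.card ∧ A.card ≤ B'.card) : False := by
  have hj1 : j1 ∉ B := fun h => hne (he.hz x1 hx1A j1 h hf1).1
  have hAQ := card_union_add_card_inter A Q
  have hBY := card_union_add_card_inter B Y
  have hec := he.hc
  have hfc := hf.hc
  have hBYle : (B ∪ Y).card ≤ Fintype.card κ := card_le_univ _
  have hApos : 0 < A.card := card_pos.2 ⟨x, he.hx⟩
  by_cases hyY : y ∈ Y
  · have hxQ : x ∉ Q := fun h => hne (hf.hz x h y hyY hxy).1.symm
    have h1 : (A ∩ Q).card + (B ∪ Y).card ≤ Fintype.card ρ :=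
      hS.single_le hcard h2 (x := x1) (y := j1) (mem_inter.2 ⟨hx1A, hf.hx⟩)
        (mem_union_right _ hf.hy) (fun a ha b hb hab => by
          rw [mem_inter] at ha
          rw [mem_union] at hb
          rcases hb with hb | hb
          · exact absurd ((he.hz a ha.1 b hb hab).1 ▸ ha.2) hxQ
          · exact hf.hz a ha.2 b hb hab)
    have h3 : (A ∪ Q).card + (B ∩ Y).card ≤ Fintype.card ρ :=
      hS.single_le hcard h2 (x := x) (y := y) (mem_union_left _ he.hx)
        (mem_inter.2 ⟨he.hy, hyY⟩) (fun a ha b hb hab => by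
          rw [mem_inter] at hb
          rw [mem_union] at ha
          rcases ha with ha | ha
          · exact he.hz a ha b hb.1 hab
          · exact absurd ((hf.hz a ha b hb.2 hab).2 ▸ hb.1) hj1)
    have hcut : Cut S x1 j1 (A ∩ Q) (B ∪ Y) :=
      ⟨mem_inter.2 ⟨hx1A, hf.hx⟩, mem_union_right _ hf.hy, fun a ha b hb hab => by
          rw [mem_inter] at ha
          rw [mem_union] at hb
          rcases hb with hb | hb
          · exact absurd ((he.hz a ha.1 b hb hab).1 ▸ ha.2) hxQ
          · exact hf.hz a ha.2 b hb hab, by omega⟩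
    have h4 := (hmin _ _ hcut).1
    have h5 : (A ∩ Q).card < A.card := by
      apply card_lt_card
      rw [ssubset_iff_subset_ne]
      refine ⟨inter_subset_left, fun h => hxQ ?_⟩
      have := he.hx
      rw [← h] at this
      exact (mem_inter.1 this).2
    omega
  · by_cases hBYne : (B ∩ Y).Nonempty
    · have h1 := hS (A ∪ Q) (B ∩ Y) ⟨x, mem_union_left _ he.hx⟩ hBYne (fun a ha b hb hab => by
        rw [mem_inter] at hb
        rw [mem_union] at ha
        rcases ha with ha | ha
        · exact hyY ((he.hz a ha b hb.1 hab).2 ▸ hb.2)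
        · exact hj1 ((hf.hz a ha b hb.2 hab).2 ▸ hb.1))
      have hz : ∀ a ∈ (A ∩ Q).erase x, ∀ b ∈ B ∪ Y, S a b → a = x1 ∧ b = j1 := by
        intro a ha b hb hab
        rw [mem_erase, mem_inter] at ha
        rw [mem_union] at hb
        rcases hb with hb | hb
        · exact absurd (he.hz a ha.2.1 b hb hab).1 ha.1
        · exact hf.hz a ha.2.2 b hb hab
      have hx1m : x1 ∈ (A ∩ Q).erase x := mem_erase.2 ⟨hne, mem_inter.2 ⟨hx1A, hf.hx⟩⟩
      have h3 := hS.single_le hcard h2 hx1m (mem_union_right B hf.hy) hz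
      have h4 : (A ∩ Q).card ≤ ((A ∩ Q).erase x).card + 1 := by
        by_cases hm : x ∈ A ∩ Q
        · rw [card_erase_of_mem hm]; omega
        · rw [erase_eq_of_notMem hm]; omega
      have hcut : Cut S x1 j1 ((A ∩ Q).erase x) (B ∪ Y) :=
        ⟨hx1m, mem_union_right B hf.hy, hz, by omega⟩
      have h5 := (hmin _ _ hcut).1
      have h6 : ((A ∩ Q).erase x).card < A.card := by
        apply card_lt_card
        rw [ssubset_iff_subset_ne]
        refine ⟨(erase_subset _ _).trans inter_subset_left, fun h => ?_⟩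
        have := he.hx
        rw [← h] at this
        exact (mem_erase.1 this).1 rfl
      omega
    · rw [not_nonempty_iff_eq_empty] at hBYne
      rw [hBYne, card_empty] at hBY
      have h1 := (hmin _ _ hf).2
      have h3 : (B ∪ Y).card = Fintype.card κ := by omega
      have h4 : B ∪ Y = univ := by
        rw [← card_eq_iff_eq_univ]; exact h3
      have h5 := hS.single_le hcard h2 (x := x1) (y := j1) (Q := {x1}) (Y := univ)
        (mem_singleton_self x1) (mem_univ _) (fun a ha b _ hab => by
          rw [mem_singleton] at ha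
          subst ha
          have hb : b ∈ B ∪ Y := by rw [h4]; exact mem_univ b
          rw [mem_union] at hb
          rcases hb with hb | hb
          · exact absurd (he.hz a hx1A b hb hab).1 hne
          · exact hf.hz a hf.hx b hb hab)
      rw [card_singleton, card_univ] at h5
      omega

end Pool.Agent.H849R2.ND
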