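import Pool.Agent.H849R2.ND.Low
import Pool.Agent.H849R2.ND.Num

namespace Pool.Agent.H849R2.ND

theorem s2 : Tr 3 2 1 := Tr.base (by norm_num)
theorem s3 : Tr 4 3 1 := Tr.base (by norm_num)
theorem s4 : Tr 5 4 1 := Tr.base (by norm_num)
theorem t3 : Tr 6 5 2 := Tr.att s2 s2
theorem t4 : Tr 7 7 3 := Tr.att s2 s3
theorem t5 : Tr 8 10 3 := Tr.att s3 s3
theorem t6 : Tr 9 13 4 := Tr.att s3 s4
theorem t7 : Tr 10 17 7 := Tr.att s2 t4
theorem t8 : Tr 11 24 9 := Tr.att t4 s3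
theorem t9 : Tr 12 33 10 := Tr.att s3 t5
theorem t10 : Tr 13 43 13 := Tr.att s3 t6
theorem t11 : Tr 14 58 21 := Tr.att t4 t4
theorem t12 : Tr 15 81 27 := Tr.att t8 s3
theorem t13 : Tr 16 109 33 := Tr.att s3 t9
theorem t14 : Tr 17 142 43 := Tr.att s3 t10
theorem t15 : Tr 18 195 72 := Tr.att t4 t8
theorem t16 : Tr 19 270 81 := Tr.att s3 t12
theorem t17 : Tr 20 360 109 := Tr.att s3 t13
theorem t18 : Tr 14 57 24 := Tr.att s2 t8
theorem t19 : Tr 21 471 171 := Tr.att t4 t18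
theorem t20 : Tr 22 657 216 := Tr.att t8 t8
theorem t21 : Tr 23 891 270 := Tr.att s3 t16
theorem t22 : Tr 24 1189 360 := Tr.att s3 t17
theorem t23 : Tr 25 1584 576 := Tr.att t18 t8
theorem t24 : Tr 26 2187 729 := Tr.att t8 t12
theorem t25 : Tr 27 2943 891 := Tr.att s3 t21
theorem t26 : Tr 28 3927 1189 := Tr.att s3 t22
theorem t27 : Tr 29 5328 1755 := Tr.att t8 t15
theorem t28 : Tr 30 7290 2187 := Tr.att s3 t24
theorem t29 : Tr 31 9720 2943 := Tr.att s3 t25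
theorem t30 : Tr 32 12970 3927 := Tr.att s3 t26
theorem t31 : Tr 22 648 243 := Tr.att t4 t12
theorem t32 : Tr 33 17739 5832 := Tr.att t8 t31
theorem t33 : Tr 34 24057 7290 := Tr.att s3 t28
theorem t34 : Tr 35 32103 9720 := Tr.att s3 t29
theorem t35 : Tr 25 1581 585 := Tr.att t4 t15
theorem t36 : Tr 36 43209 14229 := Tr.att t8 t35
theorem t37 : Tr 37 59049 19683 := Tr.att t8 t24
theorem t38 : Tr 38 79461 24057 := Tr.att s3 t33
theorem t39 : Tr 39 106029 32103 := Tr.att s3 t34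
theorem t40 : Tr 29 5265 1944 := Tr.att t4 t31
theorem t41 : Tr 40 143856 47385 := Tr.att t8 t40
theorem t42 : Tr 41 196830 59049 := Tr.att s3 t37
theorem t43 : Tr 42 262440 79461 := Tr.att s3 t38
theorem t44 : Tr 32 12822 4743 := Tr.att t4 t35
theorem t45 : Tr 43 350415 115398 := Tr.att t8 t44
theorem t46 : Tr 33 17496 6561 := Tr.att t4 t24
theorem t47 : Tr 36 42687 15795 := Tr.att t4 t40
theorem t48 : Tr 39 103983 38466 := Tr.att t4 t44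

theorem tr_small (n : ℕ) (h3 : 3 ≤ n) (h : n ≤ 43) : ∃ Z0, Tr n (M n) Z0 := by
  interval_cases n
  · exact ⟨_, s2⟩
  · exact ⟨_, s3⟩
  · exact ⟨_, s4⟩
  · exact ⟨_, t3⟩
  · exact ⟨_, t4⟩
  · exact ⟨_, t5⟩
  · exact ⟨_, t6⟩
  · exact ⟨_, t7⟩
  · exact ⟨_, t8⟩
  · exact ⟨_, t9⟩
  · exact ⟨_, t10⟩
  · exact ⟨_, t11⟩
  · exact ⟨_, t12⟩
  · exact ⟨_, t13⟩
  · exact ⟨_, t14⟩
  · exact ⟨_, t15⟩
  · exact ⟨_, t16⟩
  · exact ⟨_, t17⟩
  · exact ⟨_, t19⟩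
  · exact ⟨_, t20⟩
  · exact ⟨_, t21⟩
  · exact ⟨_, t22⟩
  · exact ⟨_, t23⟩
  · exact ⟨_, t24⟩
  · exact ⟨_, t25⟩
  · exact ⟨_, t26⟩
  · exact ⟨_, t27⟩
  · exact ⟨_, t28⟩
  · exact ⟨_, t29⟩
  · exact ⟨_, t30⟩
  · exact ⟨_, t32⟩
  · exact ⟨_, t33⟩
  · exact ⟨_, t34⟩
  · exact ⟨_, t36⟩
  · exact ⟨_, t37⟩
  · exact ⟨_, t38⟩
  · exact ⟨_, t39⟩
  · exact ⟨_, t41⟩
  · exact ⟨_, t42⟩
  · exact ⟨_, t43⟩
  · exact ⟨_, t45⟩

theorem tr_big (n : ℕ) (h33 : 33 ≤ n) (h : n ≤ 43) :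
    ∃ Z Z0, Tr (n - 4) Z Z0 ∧ Z * 3 + Z0 * 1 = M n := by
  interval_cases n
  · exact ⟨_, _, t40, by decide +kernel⟩
  · exact ⟨_, _, t28, by decide +kernel⟩
  · exact ⟨_, _, t29, by decide +kernel⟩
  · exact ⟨_, _, t44, by decide +kernel⟩
  · exact ⟨_, _, t46, by decide +kernel⟩
  · exact ⟨_, _, t33, by decide +kernel⟩
  · exact ⟨_, _, t34, by decide +kernel⟩
  · exact ⟨_, _, t47, by decide +kernel⟩
  · exact ⟨_, _, t37, by decide +kernel⟩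
  · exact ⟨_, _, t38, by decide +kernel⟩
  · exact ⟨_, _, t48, by decide +kernel⟩

theorem tr_all_big : ∀ n, 33 ≤ n → ∃ Z Z0, Tr (n - 4) Z Z0 ∧ Z * 3 + Z0 * 1 = M n := by
  intro n
  induction n using Nat.strong_induction_on with
  | _ n ih =>
  intro hn
  by_cases h : n ≤ 43
  · exact tr_big n hn h
  · obtain ⟨Z, Z0, ht, he⟩ := ih (n - 11) (by omega) (by omega)
    refine ⟨24 * Z + 9 * Z0, 9 * Z, ?_, ?_⟩
    · have h1 : Tr 11 24 9 := Tr.att (Tr.att (Tr.base (a := 2) le_rfl) s3) s3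
      have h2 := Tr.att h1 ht
      have e : 11 + (n - 11 - 4) = n - 4 := by omega
      rw [e] at h2
      exact h2
    · rw [M_step' (by omega : 44 ≤ n), ← he]
      ring

theorem tr_all (n : ℕ) (hn : 3 ≤ n) : ∃ Z0, Tr n (M n) Z0 := by
  by_cases h : n ≤ 43
  · exact tr_small n hn h
  · obtain ⟨Z, Z0, ht, he⟩ := tr_all_big n (by omega)
    have h2 := Tr.att ht s3
    have e : n - 4 + 4 = n := by omega
    rw [e, he] at h2
    exact ⟨_, h2⟩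

end Pool.Agent.H849R2.ND
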