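import Pool.Agent.H849R2.ND.Core

namespace Pool.Agent.H849R2.ND

open Finset
open scoped Classical

set_option linter.unusedSectionVars false
set_option linter.unusedVariables false

variable {ρ κ : Type} [Fintype ρ] [Fintype κ]

/-- change one entry -/
noncomputable def upd {β : Type} (f : ρ → κ → β) (x : ρ) (y : κ) (v : β) : ρ → κ → β :=
  fun a b => if a = x ∧ b = y then v else f a b

lemma upd_self {β : Type} (f : ρ → κ → β) (x : ρ) (y : κ) (v : β) : upd f x y v x y = v := by
  simp [upd]

lemma upd_ne {β : Type} (f : ρ → κ → β) {x : ρ} {y : κ} {v : β} {a : ρ} {b : κ}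
    (h : ¬ (a = x ∧ b = y)) : upd f x y v a b = f a b := by
  simp only [upd, if_neg h]

lemma cost_upd (c : ρ → κ → ℕ) (x : ρ) (y : κ) (v : ℕ) :
    cost (upd c x y v) + c x y = cost c + v := by
  unfold cost
  rw [← Finset.sum_product', ← Finset.sum_product', ← Finset.sum_erase_add (univ ×ˢ univ) _
      (a := (x, y)) (by simp), ← Finset.sum_erase_add (univ ×ˢ univ) (fun z : ρ × κ => c z.1 z.2)
      (a := (x, y)) (by simp)]
  have h1 : ∑ z ∈ (univ ×ˢ univ : Finset (ρ × κ)).erase (x, y), upd c x y v z.1 z.2 =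
      ∑ z ∈ (univ ×ˢ univ : Finset (ρ × κ)).erase (x, y), c z.1 z.2 := by
    refine sum_congr rfl fun z hz => ?_
    rw [mem_erase] at hz
    apply upd_ne
    rintro ⟨h1, h2⟩
    exact hz.1 (Prod.ext h1 h2)
  rw [h1]
  simp only [upd_self]
  omega

lemma fac_upd (P : ρ → κ → ℝ) (x : ρ) (y : κ) (v : ℝ) :
    fac (upd P x y v) * P x y = fac P * v := by
  unfold fac
  rw [← Finset.prod_product', ← Finset.prod_product', ← Finset.prod_erase_mul (univ ×ˢ univ) _
      (a := (x, y)) (by simp), ← Finset.prod_erase_mul (univ ×ˢ univ) (fun z : ρ × κ => P z.1 z.2)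
      (a := (x, y)) (by simp)]
  have h1 : ∏ z ∈ (univ ×ˢ univ : Finset (ρ × κ)).erase (x, y), upd P x y v z.1 z.2 =
      ∏ z ∈ (univ ×ˢ univ : Finset (ρ × κ)).erase (x, y), P z.1 z.2 := by
    refine prod_congr rfl fun z hz => ?_
    rw [mem_erase] at hz
    apply upd_ne
    rintro ⟨h1, h2⟩
    exact hz.1 (Prod.ext h1 h2)
  rw [h1]
  simp only [upd_self]
  ring

variable {c : ρ → κ → ℕ} {w P : ρ → κ → ℝ} {fr : ρ → κ → Prop}

lemma supp_upd {x : ρ} {y : κ} {v : ℝ} (h1 : w x y ≠ 0) (h2 : v ≠ 0) :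
    supp (upd w x y v) = supp w := by
  funext a b
  simp only [supp, upd]
  split_ifs with h
  · rw [h.1, h.2]
    exact propext ⟨fun _ => h1, fun _ => h2⟩
  · rfl

lemma IsCore.upd_dec (h : IsCore c w P fr) {x : ρ} {y : κ} (h1 : w x y ≠ 0) {c' : ℕ} {w' P' : ℝ}
    (hd : Dec c' w' P') (h2 : w' ≠ 0) :
    IsCore (upd c x y c') (upd w x y w') (upd P x y P') (upd fr x y False) where
  dec := by
    intro a b hf
    by_cases hab : a = x ∧ b = y
    · rw [hab.1, hab.2, upd_self, upd_self, upd_self]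
      exact hd
    · rw [upd_ne _ hab] at hf
      rw [upd_ne _ hab, upd_ne _ hab, upd_ne _ hab]
      exact h.dec a b hf
  free := by
    intro a b hf
    by_cases hab : a = x ∧ b = y
    · rw [hab.1, hab.2, upd_self] at hf
      exact hf.elim
    · rw [upd_ne _ hab] at hf
      rw [upd_ne _ hab, upd_ne _ hab, upd_ne _ hab]
      exact h.free a b hf
  elem := by rw [supp_upd h1 h2]; exact h.elem
  ess := by
    intro a b hf
    rw [supp_upd h1 h2]
    by_cases hab : a = x ∧ b = y
    · rw [hab.1, hab.2, upd_self] at hf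
      exact hf.elim
    · rw [upd_ne _ hab] at hf
      exact h.ess a b hf

lemma IsCore.upd_free (h : IsCore c w P fr) {x : ρ} {y : κ} (h1 : w x y ≠ 0)
    (h2 : ¬ Elem (Rem (supp w) x y)) :
    IsCore (upd c x y 0) (upd w x y 1) (upd P x y 1) (upd fr x y True) where
  dec := by
    intro a b hf
    by_cases hab : a = x ∧ b = y
    · rw [hab.1, hab.2, upd_self] at hf
      exact absurd trivial hf
    · rw [upd_ne _ hab] at hf
      rw [upd_ne _ hab, upd_ne _ hab, upd_ne _ hab]
      exact h.dec a b hf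
  free := by
    intro a b hf
    by_cases hab : a = x ∧ b = y
    · rw [hab.1, hab.2, upd_self, upd_self, upd_self]
      exact ⟨rfl, rfl, rfl⟩
    · rw [upd_ne _ hab] at hf
      rw [upd_ne _ hab, upd_ne _ hab, upd_ne _ hab]
      exact h.free a b hf
  elem := by rw [supp_upd h1 one_ne_zero]; exact h.elem
  ess := by
    intro a b hf
    rw [supp_upd h1 one_ne_zero]
    by_cases hab : a = x ∧ b = y
    · rw [hab.1, hab.2]; exact h2
    · rw [upd_ne _ hab] at hf
      exact h.ess a b hf

/-- in a row with two entries, both are essential -/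
lemma ess_row {S : ρ → κ → Prop} (hcard : Fintype.card ρ = Fintype.card κ)
    (h2 : 2 ≤ Fintype.card ρ) {x : ρ} {p q : κ} (hx : ∀ b, S x b → b = p ∨ b = q) :
    ¬ Elem (Rem S x p) :=
  not_elem_row hcard h2 (c := x) (k := q) (fun b hb => by
    rcases hx b hb.1 with h | h
    · exact absurd ⟨rfl, h⟩ hb.2
    · exact h)

/-- the hypothesis on free entries needed to contract a row with two entries -/
lemma row_hfree (h : IsCore c w P fr) (hcard : Fintype.card ρ = Fintype.card κ)
    (h3 : 3 ≤ Fintype.card ρ) {x : ρ} {p q : κ} (hpq : p ≠ q)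
    (hx : ∀ b, w x b ≠ 0 ↔ b = p ∨ b = q)
    (hgood : ∀ k, k ≠ x → ∀ j, (j = p ∨ j = q) → fr k j →
      (∃ a, a ≠ x ∧ a ≠ k ∧ w a j ≠ 0) ∨
      (∃ i0 k', (∀ a, w a p ≠ 0 → a = x ∨ a = i0) ∧ (∀ a, w a q ≠ 0 → a = x ∨ a = k'))) :
    ∀ k, ∀ hk : k ∉ ({x} : Finset ρ), ∀ j ∈ ({p, q} : Finset κ), fr k j →
      ¬ Elem (Rem (conS {x} {p, q} (supp w)) ⟨k, hk⟩ none) ∧
        ∀ j2 ∈ ({p, q} : Finset κ), w k j2 ≠ 0 → j2 = j := by
  intro k hk j hj hf
  have hc : ({p, q} : Finset κ).card = ({x} : Finset ρ).card + 1 := by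
    rw [card_pair hpq, card_singleton]
  have hK : ∀ a ∈ ({x} : Finset ρ), ∀ b ∉ ({p, q} : Finset κ), ¬ supp w a b := by
    intro a ha b hb
    rw [mem_singleton] at ha
    subst ha
    simp only [supp]
    rw [hx]
    simpa using hb
  have hkx : k ≠ x := by simpa using hk
  have hj' : j = p ∨ j = q := by simpa using hj
  have hcon : Elem (conS {x} {p, q} (supp w)) := elem_con hcard h.elem hc hK
  have hcardn : 2 ≤ Fintype.card {a : ρ // a ∉ ({x} : Finset ρ)} := by
    rw [card_sub, card_singleton]; omega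
  obtain ⟨Q, Y, hcut⟩ := exists_cut hcard (by omega) h.elem (h.ess _ _ hf)
  have hce := con_ess hcard h.elem hc hK hk hcut
  rcases hgood k hkx j hj' hf with ⟨a, hax, hak, haj⟩ | ⟨i0, k', hp, hq⟩
  · rcases hce with h1 | ⟨_, Q0, hQ0, Y0, _, hjY0, _, h1⟩
    · rw [coll_mem hj] at h1
      exact ⟨h1.1, h1.2 hj⟩
    · exfalso
      rcases h1 j hjY0 a haj with h2 | h2
      · exact hax (by simpa using hQ0 h2)
      · exact hak h2.1
  · -- both columns have at most two entries
    have hcol : ∀ a : {a : ρ // a ∉ ({x} : Finset ρ)}, conS {x} {p, q} (supp w) a none →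
        a.1 = i0 ∨ a.1 = k' := by
      rintro ⟨a, ha⟩ ⟨b, hb, hab⟩
      rw [coll_eq_none] at hb
      have hax : a ≠ x := by simpa using ha
      have hb' : b = p ∨ b = q := by simpa using hb
      rcases hb' with rfl | rfl
      · left; exact (hp a hab).resolve_left hax
      · right; exact (hq a hab).resolve_left hax
    have hkk : k = i0 ∨ k = k' := by
      have := h.free_ne hf
      rcases hj' with rfl | rfl
      · left; exact (hp k this).resolve_left hkx
      · right; exact (hq k this).resolve_left hkx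
    have hne : ¬ (k = i0 ∧ k = k') := by
      rintro ⟨h1, h2⟩
      refine not_elem_col hcardn (c := none) (k := ⟨k, hk⟩) ?_ hcon
      intro a ha
      apply Subtype.ext
      rcases hcol a ha with h3 | h3
      · exact h3.trans h1.symm
      · exact h3.trans h2.symm
    constructor
    · -- the other row
      obtain ⟨o, ho, hoi⟩ : ∃ o, (o = i0 ∨ o = k') ∧ ∀ a : {a : ρ // a ∉ ({x} : Finset ρ)},
          Rem (conS {x} {p, q} (supp w)) ⟨k, hk⟩ none a none → a.1 = o := by
        rcases hkk with h1 | h1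
        · refine ⟨k', Or.inr rfl, ?_⟩
          rintro a ⟨ha, hna⟩
          rcases hcol a ha with h2 | h2
          · exact absurd ⟨Subtype.ext (h2.trans h1.symm), rfl⟩ hna
          · exact h2
        · refine ⟨i0, Or.inl rfl, ?_⟩
          rintro a ⟨ha, hna⟩
          rcases hcol a ha with h2 | h2
          · exact h2
          · exact absurd ⟨Subtype.ext (h2.trans h1.symm), rfl⟩ hna
      by_cases hox : o ∉ ({x} : Finset ρ)
      · exact not_elem_col hcardn (c := none) (k := ⟨o, hox⟩) (fun a ha => Subtype.ext (hoi a ha))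
      · refine not_elem_col hcardn (c := none) (k := ⟨k, hk⟩) (fun a ha => ?_)
        have := hoi a ha
        exact absurd (this ▸ a.2) hox
    · intro j2 hj2 hw2
      by_contra hne2
      have hj2' : j2 = p ∨ j2 = q := by simpa using hj2
      have hwj := h.free_ne hf
      rcases hj' with rfl | rfl
      · rcases hj2' with rfl | rfl
        · exact hne2 rfl
        · exact hne ⟨(hp k hwj).resolve_left hkx, (hq k hw2).resolve_left hkx⟩
      · rcases hj2' with rfl | rfl
        · exact hne ⟨(hp k hw2).resolve_left hkx, (hq k hwj).resolve_left hkx⟩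
        · exact hne2 rfl

end Pool.Agent.H849R2.ND
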